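import Mathlib

/-!
MP_582f2d_co: caterpillars given by a spine and by the leaves attached to it.
-/

set_option autoImplicit false

namespace Pool.Agent.H90.CB

open SimpleGraph

variable {V : Type} {T : SimpleGraph V}

/-- a graph with a parent function and a rank is acyclic -/
theorem acyclic_of_par (par : V → V) (ρ : V → ℕ)
    (h : ∀ x y, T.Adj x y → ρ y ≤ ρ x → y = par x) : T.IsAcyclic := by
  classical
  intro v c hc
  obtain ⟨w, hw, hmax⟩ : ∃ w ∈ c.support, ∀ z ∈ c.support, ρ z ≤ ρ w := by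
    obtain ⟨w, hw, h1⟩ := Finset.exists_max_image c.support.toFinset ρ
      ⟨v, List.mem_toFinset.2 c.start_mem_support⟩
    exact ⟨w, List.mem_toFinset.1 hw, fun z hz => h1 z (List.mem_toFinset.2 hz)⟩
  have hc' := hc.rotate hw
  have hs : ∀ z, z ∈ (c.rotate w hw).support → z ∈ c.support := by
    intro z hz
    rwa [SimpleGraph.Walk.mem_support_rotate_iff] at hz
  have hn : ¬ (c.rotate w hw).Nil := hc'.not_nil
  have h1 := h _ _ (Walk.adj_snd hn) (hmax _ (hs _ (Walk.getVert_mem_support _ _)))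
  have h2 := h _ _ (Walk.adj_penultimate hn).symm (hmax _ (hs _ (Walk.getVert_mem_support _ _)))
  exact hc'.snd_ne_penultimate (h1.trans h2.symm)

/-- a path with leaves attached -/
structure Cat (T : SimpleGraph V) (L : ℕ) (S : ℕ → V) : Prop where
  pos : 0 < L
  inj : ∀ i j, i < L → j < L → S i = S j → i = j
  adj : ∀ i j, i < L → j < L → (T.Adj (S i) (S j) ↔ i + 1 = j ∨ j + 1 = i)
  leaf : ∀ x, (∀ i < L, S i ≠ x) → ∃ i < L, ∀ y, T.Adj x y ↔ y = S i

theorem Cat.isTree {L : ℕ} {S : ℕ → V} (h : Cat T L S) : T.IsTree := by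
  classical
  have hex : ∀ x, ∃ i, (i < L ∧ S i = x) ∨ (i = L ∧ ∀ j < L, S j ≠ x) := by
    intro x
    by_cases hx : ∃ i < L, S i = x
    · obtain ⟨i, hi, h1⟩ := hx
      exact ⟨i, Or.inl ⟨hi, h1⟩⟩
    · exact ⟨L, Or.inr ⟨rfl, fun j hj h1 => hx ⟨j, hj, h1⟩⟩⟩
  choose ρ hρ using hex
  have hS : ∀ i, i < L → ρ (S i) = i := by
    intro i hi
    rcases hρ (S i) with ⟨h1, h2⟩ | ⟨h1, h2⟩
    · exact h.inj _ _ h1 hi h2
    · exact (h2 i hi rfl).elim
  have hatt : ∀ x, ∃ z, (∀ i < L, S i ≠ x) → (∃ i < L, z = S i) ∧ ∀ y, T.Adj x y ↔ y = z := by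
    intro x
    by_cases hx : ∀ i < L, S i ≠ x
    · obtain ⟨i, hi, h1⟩ := h.leaf x hx
      exact ⟨S i, fun _ => ⟨⟨i, hi, rfl⟩, h1⟩⟩
    · exact ⟨x, fun h1 => (hx h1).elim⟩
  choose att hat using hatt
  have hS0 : ∀ i, i < L → T.Reachable (S 0) (S i) := by
    intro i
    induction i with
    | zero => exact fun _ => Reachable.refl _
    | succ i ih =>
      intro hi
      exact (ih (by omega)).trans ((h.adj i (i + 1) (by omega) hi).2 (Or.inl rfl)).reachable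
  have hre : ∀ x, T.Reachable (S 0) x := by
    intro x
    rcases hρ x with ⟨h1, h2⟩ | ⟨h1, h2⟩
    · rw [← h2]
      exact hS0 _ h1
    · obtain ⟨⟨i, hi, h3⟩, h4⟩ := hat x h2
      rw [h3] at h4
      exact (hS0 i hi).trans ((h4 _).2 rfl).symm.reachable
  have : Nonempty V := ⟨S 0⟩
  refine ⟨⟨fun x y => (hre x).symm.trans (hre y)⟩, ?_⟩
  refine acyclic_of_par (fun x => if ρ x < L then S (ρ x - 1) else att x) ρ ?_
  intro x y hxy hle
  rcases hρ x with ⟨h1, h2⟩ | ⟨h1, h2⟩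
  · have h3 : ρ y < L := by omega
    rw [if_pos h1]
    rcases hρ y with ⟨h4, h5⟩ | ⟨h4, h5⟩
    · rw [← h2, ← h5, h.adj _ _ h1 h4] at hxy
      rcases hxy with h6 | h6
      · omega
      · rw [← h5, ← h6]
        rfl
    · omega
  · rw [if_neg (by omega)]
    exact ((hat x h2).2 y).1 hxy

theorem Cat.path {L : ℕ} {S : ℕ → V} (h : Cat T L S) :
    Nonempty (T.induce {x | ∃ i < L, S i = x} ≃g pathGraph L) := by
  refine ⟨RelIso.symm ⟨Equiv.ofBijective (fun i : Fin L => (⟨S i, i, i.2, rfl⟩ :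
    {x | ∃ i < L, S i = x})) ⟨?_, ?_⟩, ?_⟩⟩
  · intro i j hij
    exact Fin.ext (h.inj _ _ i.2 j.2 (congrArg Subtype.val hij))
  · rintro ⟨x, i, hi, rfl⟩
    exact ⟨⟨i, hi⟩, rfl⟩
  · intro i j
    rw [pathGraph_adj]
    exact h.adj _ _ i.2 j.2

end Pool.Agent.H90.CB
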