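import Mathlib

/-!
MP_582f2d_co: a Gray code for a set of generators of a group of exponent two.
-/

set_option autoImplicit false

namespace Pool.Agent.H90.CB

/-- `c` runs through a subgroup in `M` steps with steps in `gs` -/
structure Gr {A : Type} [AddCommGroup A] (gs : Set A) (M : ℕ) (c : ℕ → A) : Prop where
  pos : 0 < M
  zero : c 0 = 0
  inj : ∀ i j, i < M → j < M → c i = c j → i = j
  step : ∀ i, i + 1 < M → c i + c (i + 1) ∈ gs
  add : ∀ i j, i < M → j < M → ∃ k < M, c k = c i + c j
  gen : ∀ g ∈ gs, ∃ i < M, c i = g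
  cl : ∀ i < M, c i ∈ AddSubgroup.closure gs

theorem gray {A : Type} [AddCommGroup A] (h2 : ∀ x : A, x + x = 0) (gs : Finset A) :
    ∃ (M : ℕ) (c : ℕ → A), Gr (gs : Set A) M c := by
  classical
  induction gs using Finset.induction_on with
  | empty =>
    refine ⟨1, fun _ => 0, ⟨one_pos, rfl, fun i j hi hj _ => by omega, fun i hi => by omega,
      fun i j _ _ => ⟨0, one_pos, by simp⟩, fun g hg => by simp at hg, fun i _ => zero_mem _⟩⟩
  | insert g gs hg ih =>
    obtain ⟨M, c, hc⟩ := ih
    have hsub : (gs : Set A) ⊆ (insert g gs : Finset A) := by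
      intro x hx
      exact Finset.mem_coe.2 (Finset.mem_insert_of_mem (Finset.mem_coe.1 hx))
    have hcl : AddSubgroup.closure (gs : Set A) ≤ AddSubgroup.closure ((insert g gs : Finset A) : Set A) :=
      AddSubgroup.closure_mono hsub
    have hgcl : g ∈ AddSubgroup.closure ((insert g gs : Finset A) : Set A) :=
      AddSubgroup.subset_closure (Finset.mem_coe.2 (Finset.mem_insert_self _ _))
    by_cases hin : ∃ i < M, c i = g
    · refine ⟨M, c, ⟨hc.pos, hc.zero, hc.inj, fun i hi => hsub (hc.step i hi), hc.add, ?_,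
        fun i hi => hcl (hc.cl i hi)⟩⟩
      intro x hx
      rcases Finset.mem_insert.1 (Finset.mem_coe.1 hx) with rfl | hx
      · exact hin
      · exact hc.gen x (Finset.mem_coe.2 hx)
    · have hsw : ∀ i, i < 2 * M → ¬ i < M → 2 * M - 1 - i < M := fun i h1 h3 => by omega
      have hM := hc.pos
      have key : ∀ i j, i < M → j < M → c i + g ≠ c j := by
        intro i j hi hj h
        obtain ⟨k, hk, hk2⟩ := hc.add i j hi hj
        refine hin ⟨k, hk, ?_⟩
        rw [hk2, ← h, ← add_assoc, h2, zero_add]
      refine ⟨2 * M, fun i => if i < M then c i else c (2 * M - 1 - i) + g,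
        ⟨by omega, ?_, ?_, ?_, ?_, ?_, ?_⟩⟩
      · show (if 0 < M then c 0 else _) = 0
        rw [if_pos hM, hc.zero]
      · intro i j hi hj h
        split_ifs at h with h3 h4 h4
        · exact hc.inj _ _ h3 h4 h
        · exact (key _ _ (hsw j hj h4) h3 h.symm).elim
        · exact (key _ _ (hsw i hi h3) h4 h).elim
        · have := hc.inj _ _ (hsw i hi h3) (hsw j hj h4) (add_right_cancel h)
          omega
      · intro i hi
        split_ifs with h3 h4 h4
        · exact hsub (hc.step i h4)
        · have e : 2 * M - 1 - (i + 1) = i := by omega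
          rw [e, ← add_assoc, h2, zero_add]
          exact Finset.mem_coe.2 (Finset.mem_insert_self _ _)
        · omega
        · have e : 2 * M - 1 - i = (2 * M - 1 - (i + 1)) + 1 := by omega
          have h5 := hc.step (2 * M - 1 - (i + 1)) (by omega)
          rw [e]
          have e2 : c (2 * M - 1 - (i + 1) + 1) + g + (c (2 * M - 1 - (i + 1)) + g) =
              c (2 * M - 1 - (i + 1)) + c (2 * M - 1 - (i + 1) + 1) + (g + g) := by abel
          rw [e2, h2, add_zero]
          exact hsub h5
      · have hone : ∀ k, k < M → ∃ k' < 2 * M, (if k' < M then c k' else c (2 * M - 1 - k') + g) = c k :=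
          fun k hk => ⟨k, by omega, if_pos hk⟩
        have htwo : ∀ k, k < M →
            ∃ k' < 2 * M, (if k' < M then c k' else c (2 * M - 1 - k') + g) = c k + g := by
          intro k hk
          refine ⟨2 * M - 1 - k, by omega, ?_⟩
          rw [if_neg (by omega)]
          congr 2
          omega
        intro i j hi hj
        split_ifs with h3 h4 h4
        · obtain ⟨k, hk, hk2⟩ := hc.add i j h3 h4
          obtain ⟨k', hk', hk3⟩ := hone k hk
          exact ⟨k', hk', by rw [hk3, hk2]⟩
        · obtain ⟨k, hk, hk2⟩ := hc.add i (2 * M - 1 - j) h3 (hsw j hj h4)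
          obtain ⟨k', hk', hk3⟩ := htwo k hk
          exact ⟨k', hk', by rw [hk3, hk2]; abel⟩
        · obtain ⟨k, hk, hk2⟩ := hc.add (2 * M - 1 - i) j (hsw i hi h3) h4
          obtain ⟨k', hk', hk3⟩ := htwo k hk
          exact ⟨k', hk', by rw [hk3, hk2]; abel⟩
        · obtain ⟨k, hk, hk2⟩ := hc.add (2 * M - 1 - i) (2 * M - 1 - j) (hsw i hi h3) (hsw j hj h4)
          obtain ⟨k', hk', hk3⟩ := hone k hk
          refine ⟨k', hk', ?_⟩
          rw [hk3, hk2]
          have e2 : c (2 * M - 1 - i) + g + (c (2 * M - 1 - j) + g) =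
              c (2 * M - 1 - i) + c (2 * M - 1 - j) + (g + g) := by abel
          rw [e2, h2, add_zero]
      · intro x hx
        rcases Finset.mem_insert.1 (Finset.mem_coe.1 hx) with rfl | hx
        · refine ⟨2 * M - 1, by omega, ?_⟩
          rw [if_neg (by omega), Nat.sub_self, hc.zero, zero_add]
        · obtain ⟨i, hi, h3⟩ := hc.gen x (Finset.mem_coe.2 hx)
          exact ⟨i, by omega, by rw [if_pos hi, h3]⟩
      · intro i hi
        split_ifs with h3
        · exact hcl (hc.cl i h3)
        · exact add_mem (hcl (hc.cl _ (hsw i hi h3))) hgcl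

/-- the code runs through the whole subgroup generated -/
theorem Gr.mem {A : Type} [AddCommGroup A] (h2 : ∀ x : A, x + x = 0) {gs : Set A} {M : ℕ} {c : ℕ → A}
    (hc : Gr gs M c) {x : A} (hx : x ∈ AddSubgroup.closure gs) : ∃ i < M, c i = x := by
  induction hx using AddSubgroup.closure_induction with
  | mem x hx => exact hc.gen x hx
  | zero => exact ⟨0, hc.pos, hc.zero⟩
  | add x y _ _ hx hy =>
    obtain ⟨i, hi, rfl⟩ := hx
    obtain ⟨j, hj, rfl⟩ := hy
    exact hc.add i j hi hj
  | neg x _ hx =>
    rwa [neg_eq_of_add_eq_zero_left (h2 x)]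

end Pool.Agent.H90.CB
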