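import Pool.Agent.H90.CB.Cat
import Pool.Agent.H90.CB.Gray

/-!
MP_582f2d_co: the double stars of the extended Hamming code, on the cube with coordinates indexed by a group `G` of
exponent two.
-/

set_option autoImplicit false
set_option linter.unusedSectionVars false

namespace Pool.Agent.H90.CB

variable {G : Type} [AddCommGroup G] [Fintype G] [DecidableEq G]

/-- unit vector -/
def e (α : G) : G → ZMod 2 := Pi.single α 1

/-- parity -/
def pa : (G → ZMod 2) →+ ZMod 2 where
  toFun x := ∑ α, x α
  map_zero' := by simp
  map_add' x y := by simp [Finset.sum_add_distrib]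

theorem w2 (x : G → ZMod 2) : x + x = 0 := by
  funext α
  exact CharTwo.add_self_eq_zero (x α)

/-- the syndrome -/
def sy (h2 : ∀ α : G, α + α = 0) : (G → ZMod 2) →+ G where
  toFun x := ∑ α, (x α).val • α
  map_zero' := by simp
  map_add' x y := by
    rw [← Finset.sum_add_distrib]
    refine Finset.sum_congr rfl fun α _ => ?_
    have key : ∀ a b : ZMod 2, (a + b).val • α = a.val • α + b.val • α := by
      intro a b
      have ha : a = 0 ∨ a = 1 := by revert a; decide
      have hb : b = 0 ∨ b = 1 := by revert b; decide
      rcases ha with rfl | rfl <;> rcases hb with rfl | rfl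
      · simp
      · simp
      · simp
      · have e1 : ((1 : ZMod 2) + 1).val = 0 := by decide
        have e2 : (1 : ZMod 2).val = 1 := by decide
        rw [e1, e2, zero_smul, one_smul, h2]
    exact key _ _

theorem pa_e (α : G) : pa (e α) = 1 := by
  show ∑ β, (Pi.single α (1 : ZMod 2) : G → ZMod 2) β = 1
  simp

theorem sy_e (h2 : ∀ α : G, α + α = 0) (α : G) : sy h2 (e α) = α := by
  show ∑ β, ((Pi.single α (1 : ZMod 2) : G → ZMod 2) β).val • β = α
  rw [Finset.sum_eq_single α]
  · have e2 : (1 : ZMod 2).val = 1 := by decide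
    rw [Pi.single_eq_same, e2, one_smul]
  · intro β _ hβ
    rw [Pi.single_eq_of_ne hβ]
    simp
  · intro h
    exact (h (Finset.mem_univ _)).elim

theorem e_ne (α : G) : e α ≠ 0 := by
  intro h
  have := congrFun h α
  simp [e] at this

theorem e_inj {α β : G} (h : e α = e β) : α = β := by
  by_contra hne
  have := congrFun h α
  simp [e, hne] at this

/-- the centre next to `x` -/
def ctr (h2 : ∀ α : G, α + α = 0) (x : G → ZMod 2) : G → ZMod 2 := x + e (sy h2 x)

theorem sy_ctr (h2 : ∀ α : G, α + α = 0) (x : G → ZMod 2) : sy h2 (ctr h2 x) = 0 := by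
  unfold ctr
  rw [map_add, sy_e, h2]

theorem ctr_add (h2 : ∀ α : G, α + α = 0) {c : G → ZMod 2} (hc : sy h2 c = 0) (β : G) :
    ctr h2 (c + e β) = c := by
  unfold ctr
  rw [map_add, sy_e, hc, zero_add, add_assoc, w2, add_zero]

theorem ctr_ne (h2 : ∀ α : G, α + α = 0) (x : G → ZMod 2) : ctr h2 x ≠ x := by
  intro h
  unfold ctr at h
  exact e_ne _ (left_eq_add.1 h.symm)

theorem eq_ctr (h2 : ∀ α : G, α + α = 0) {x y : G → ZMod 2} (h : x = ctr h2 y) : y = x + e (sy h2 y) := by
  rw [h]
  unfold ctr
  rw [add_assoc, w2, add_zero]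

/-- the generators -/
def gens : Set (G → ZMod 2) :=
  {x | ∃ α β : G, α ≠ 0 ∧ β ≠ 0 ∧ α ≠ β ∧ x = e 0 + e α + e β + e (α + β)}

theorem sy_gen (h2 : ∀ α : G, α + α = 0) (α β : G) : sy h2 (e 0 + e α + e β + e (α + β)) = 0 := by
  rw [map_add, map_add, map_add, sy_e, sy_e, sy_e, sy_e, zero_add]
  exact h2 _

theorem pa_gen (α β : G) : pa (e 0 + e α + e β + e (α + β)) = 0 := by
  rw [map_add, map_add, map_add, pa_e, pa_e, pa_e, pa_e]
  decide

theorem zmod_ne {a : ZMod 2} (h : a ≠ 0) : a = 1 := by
  revert a
  decide

theorem span (h2 : ∀ α : G, α + α = 0) : ∀ (m : ℕ) (x : G → ZMod 2), sy h2 x = 0 → pa x = 0 →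
    (Finset.univ.filter fun α : G => α ≠ 0 ∧ x α ≠ 0).card ≤ m → x ∈ AddSubgroup.closure (gens (G := G)) := by
  intro m
  induction m with
  | zero =>
    intro x hs hp hm
    have hN : ∀ α : G, α ≠ 0 → x α = 0 := by
      intro α hα
      by_contra h
      have : α ∈ Finset.univ.filter fun α : G => α ≠ 0 ∧ x α ≠ 0 :=
        Finset.mem_filter.2 ⟨Finset.mem_univ _, hα, h⟩
      have := Finset.card_pos.2 ⟨α, this⟩
      omega
    have h0 : x 0 = 0 := by
      have : pa x = x 0 := by
        show ∑ α, x α = x 0
        exact Finset.sum_eq_single 0 (fun α _ hα => hN α hα) (fun h => (h (Finset.mem_univ _)).elim)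
      rw [← this, hp]
    have : x = 0 := by
      funext α
      by_cases hα : α = 0
      · rw [hα, h0]
        rfl
      · exact hN α hα
    rw [this]
    exact zero_mem _
  | succ m ih =>
    intro x hs hp hm
    by_cases hle : (Finset.univ.filter fun α : G => α ≠ 0 ∧ x α ≠ 0).card ≤ m
    · exact ih x hs hp hle
    set N := Finset.univ.filter fun α : G => α ≠ 0 ∧ x α ≠ 0 with hNd
    have hmem : ∀ α, α ∈ N ↔ α ≠ 0 ∧ x α ≠ 0 := by
      intro α
      rw [hNd, Finset.mem_filter]
      exact ⟨fun h => h.2, fun h => ⟨Finset.mem_univ _, h⟩⟩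
    obtain ⟨α, hα⟩ := Finset.card_pos.1 (show 0 < N.card by omega)
    have h1 := (hmem α).1 hα
    obtain ⟨β, hβ, hne⟩ : ∃ β ∈ N, β ≠ α := by
      by_contra hcon
      push Not at hcon
      have h3 : sy h2 x = α := by
        show ∑ γ, (x γ).val • γ = α
        rw [Finset.sum_eq_single α]
        · rw [zmod_ne h1.2]
          have e2 : (1 : ZMod 2).val = 1 := by decide
          rw [e2, one_smul]
        · intro γ _ hγ
          by_cases h4 : γ = 0
          · rw [h4, smul_zero]
          · have : x γ = 0 := by
              by_contra h5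
              exact hγ (hcon γ ((hmem γ).2 ⟨h4, h5⟩))
            rw [this]
            simp
        · intro h
          exact (h (Finset.mem_univ _)).elim
      exact h1.1 (by rw [← h3, hs])
    have h3 := (hmem β).1 hβ
    have hx' : x + (e 0 + e α + e β + e (α + β)) ∈ AddSubgroup.closure (gens (G := G)) := by
      refine ih _ (by rw [map_add, hs, sy_gen, zero_add]) (by rw [map_add, hp, pa_gen, zero_add]) ?_
      have hsub : (Finset.univ.filter fun γ : G => γ ≠ 0 ∧ (x + (e 0 + e α + e β + e (α + β)) : G → ZMod 2) γ ≠ 0) ⊆
          insert (α + β) ((N.erase α).erase β) := by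
        intro γ hγ
        rw [Finset.mem_filter] at hγ
        obtain ⟨_, h4, h5⟩ := hγ
        rw [Finset.mem_insert, Finset.mem_erase, Finset.mem_erase, hmem]
        by_cases h6 : γ = α + β
        · exact Or.inl h6
        · right
          have e0 : (e (0 : G)) γ = 0 := by simp [e, h4]
          have e3 : (e (α + β)) γ = 0 := by simp [e, h6]
          by_cases h7 : γ = α
          · exfalso
            have e1 : (e α) γ = 1 := by simp [e, h7]
            have e2 : (e β) γ = 0 := by simp [e, h7, hne.symm]
            apply h5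
            simp only [Pi.add_apply]
            rw [e0, e1, e2, e3, h7, zmod_ne h1.2]
            decide
          · by_cases h8 : γ = β
            · exfalso
              have e1 : (e α) γ = 0 := by simp [e, h7]
              have e2 : (e β) γ = 1 := by simp [e, h8]
              apply h5
              simp only [Pi.add_apply]
              rw [e0, e1, e2, e3, h8, zmod_ne h3.2]
              decide
            · refine ⟨h8, h7, h4, ?_⟩
              have e1 : (e α) γ = 0 := by simp [e, h7]
              have e2 : (e β) γ = 0 := by simp [e, h8]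
              simp only [Pi.add_apply] at h5
              rw [e0, e1, e2, e3, add_zero, add_zero, add_zero, add_zero] at h5
              exact h5
      have h4 := Finset.card_le_card hsub
      have h5 := Finset.card_insert_le (α + β) ((N.erase α).erase β)
      have h6 : ((N.erase α).erase β).card = N.card - 1 - 1 := by
        rw [Finset.card_erase_of_mem (Finset.mem_erase.2 ⟨hne, hβ⟩), Finset.card_erase_of_mem hα]
      have h7 : 2 ≤ N.card := by
        have := Finset.card_le_card (show ({α, β} : Finset G) ⊆ N by
          intro z hz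
          rw [Finset.mem_insert, Finset.mem_singleton] at hz
          rcases hz with rfl | rfl
          · exact hα
          · exact hβ)
        rwa [Finset.card_pair hne.symm] at this
      omega
    have hg : (e 0 + e α + e β + e (α + β)) ∈ AddSubgroup.closure (gens (G := G)) :=
      AddSubgroup.subset_closure ⟨α, β, h1.1, h3.1, hne.symm, rfl⟩
    have h4 := add_mem hx' hg
    rwa [add_assoc, w2, add_zero] at h4

end Pool.Agent.H90.CB
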