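import Pool.Agent.H90.CB.Tree
import Pool.Agent.H8.Full

/-!
MP_582f2d_co: the number of vertices of full degree of a spanning caterpillar of the cube.
-/

set_option autoImplicit false
set_option linter.unusedSectionVars false

namespace Pool.Agent.H90.CB

open SimpleGraph

/-- degree -/
noncomputable def dg {V : Type} (T : SimpleGraph V) (v : V) : ℕ := (T.neighborSet v).ncard

section

variable {G : Type} [AddCommGroup G] [Fintype G] [DecidableEq G]
variable {h2 : ∀ α : G, α + α = 0} {M : ℕ} {c : ℕ → G → ZMod 2} {a b : ℕ → G}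

theorem Chain.dg_cen (h : Chain h2 M c a b) {x : G → ZMod 2} (hx : sy h2 x = 0) :
    dg h.graph x = Fintype.card G := by
  have e1 : h.graph.neighborSet x = Set.range fun β : G => x + e β := by
    ext y
    rw [SimpleGraph.mem_neighborSet]
    constructor
    · intro hy
      obtain ⟨β, hβ⟩ := h.adj_cube hy
      exact ⟨β, hβ.symm⟩
    · rintro ⟨β, rfl⟩
      exact h.adj_cen hx β
  unfold dg
  rw [e1, ← Set.image_univ, Set.ncard_image_of_injective _ (fun α β hab => e_inj (add_left_cancel hab)),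
    Set.ncard_univ, Nat.card_eq_fintype_card]

theorem Chain.dg_leaf (h : Chain h2 M c a b) {x : G → ZMod 2} (hx : ∀ i < 4 * M - 2, spine c a b i ≠ x) :
    dg h.graph x = 1 := by
  obtain ⟨i, _, hi⟩ := h.cat.leaf x hx
  unfold dg
  rw [show h.graph.neighborSet x = {spine c a b i} by
    ext y
    rw [SimpleGraph.mem_neighborSet, hi, Set.mem_singleton_iff], Set.ncard_singleton]

theorem Chain.dg_link (h : Chain h2 M c a b) {i : ℕ} (hi : i + 2 < 4 * M - 2)
    (hs : sy h2 (spine c a b (i + 1)) ≠ 0) : dg h.graph (spine c a b (i + 1)) = 2 := by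
  unfold dg
  rw [show h.graph.neighborSet (spine c a b (i + 1)) = {spine c a b i, spine c a b (i + 2)} by
    ext y
    rw [SimpleGraph.mem_neighborSet, h.graph_adj, Set.mem_insert_iff, Set.mem_singleton_iff]
    constructor
    · rintro (⟨k, hk, ⟨h3, h4⟩ | ⟨h3, h4⟩⟩ | ⟨h3, _⟩ | ⟨_, h3⟩)
      · have := h.inj' (by omega) (by omega) h3
        rw [this] at h4
        exact Or.inr h4.symm
      · have := h.inj' (by omega) (by omega) h4
        have e1 : k = i := by omega
        rw [e1] at h3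
        exact Or.inl h3.symm
      · exact (h3 _ (by omega) rfl).elim
      · exact (hs (by rw [h3]; exact sy_ctr h2 y)).elim
    · rintro (rfl | rfl)
      · exact Or.inl ⟨i, by omega, Or.inr ⟨rfl, rfl⟩⟩
      · exact Or.inl ⟨i + 1, by omega, Or.inl ⟨rfl, rfl⟩⟩]
  refine Set.ncard_pair fun h3 => ?_
  have := h.inj' (by omega) (by omega) h3
  omega

/-- the three kinds of vertices -/
theorem Chain.kinds (h : Chain h2 M c a b) (x : G → ZMod 2) :
    (sy h2 x = 0 ∧ dg h.graph x = Fintype.card G) ∨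
    (sy h2 x ≠ 0 ∧ (∃ i < 4 * M - 2, spine c a b i = x) ∧ dg h.graph x = 2) ∨
    (sy h2 x ≠ 0 ∧ (∀ i < 4 * M - 2, spine c a b i ≠ x) ∧ dg h.graph x = 1) := by
  by_cases hx : sy h2 x = 0
  · exact Or.inl ⟨hx, h.dg_cen hx⟩
  right
  by_cases hs : ∃ i < 4 * M - 2, spine c a b i = x
  · left
    refine ⟨hx, hs, ?_⟩
    obtain ⟨i, hi, rfl⟩ := hs
    obtain ⟨k, hk, h4 | h4 | ⟨h4, h5⟩ | ⟨h4, h5⟩⟩ := pos_cases h.pos hi
    · rw [h4, sp0] at hx
      exact (hx (h.sy0 k hk)).elim
    · rw [h4, sp1, map_add, sy_e, h.sy0 k hk, zero_add] at hx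
      exact (hx rfl).elim
    · rw [h4] at hx ⊢
      exact h.dg_link (i := 4 * k + 1) (by omega) hx
    · rw [h4] at hx ⊢
      exact h.dg_link (i := 4 * k + 2) (by omega) hx
  · right
    push Not at hs
    exact ⟨hx, hs, h.dg_leaf hs⟩

/-- the centres and their neighbours are a partition of the cube -/
theorem card_cen (h2 : ∀ α : G, α + α = 0) :
    Fintype.card G * {x : G → ZMod 2 | sy h2 x = 0}.ncard = 2 ^ Fintype.card G := by
  classical
  let E : (G → ZMod 2) ≃ {x : G → ZMod 2 | sy h2 x = 0} × G :=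
    { toFun := fun x => (⟨ctr h2 x, sy_ctr h2 x⟩, sy h2 x)
      invFun := fun z => z.1.1 + e z.2
      left_inv := fun x => by
        show ctr h2 x + e (sy h2 x) = x
        unfold ctr
        rw [add_assoc, w2, add_zero]
      right_inv := fun z => by
        have h3 : ctr h2 (z.1.1 + e z.2) = z.1.1 := ctr_add h2 z.1.2 _
        have h4 : sy h2 (z.1.1 + e z.2) = z.2 := by
          rw [map_add, sy_e, show sy h2 z.1.1 = 0 from z.1.2, zero_add]
        exact Prod.ext (Subtype.ext h3) h4 }
  have h3 := Nat.card_congr E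
  rw [Nat.card_prod, Nat.card_coe_set_eq, Nat.card_eq_fintype_card, Nat.card_eq_fintype_card,
    Fintype.card_fun, ZMod.card] at h3
  rw [mul_comm, ← h3]

end

theorem Cat.comap {V V' : Type} {T : SimpleGraph V} {L : ℕ} {S : ℕ → V} (h : Cat T L S) (f : V ≃ V') :
    Cat (T.comap f.symm) L (fun i => f (S i)) where
  pos := h.pos
  inj i j hi hj hij := h.inj i j hi hj (f.injective hij)
  adj i j hi hj := by
    rw [SimpleGraph.comap_adj, f.symm_apply_apply, f.symm_apply_apply]
    exact h.adj i j hi hj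
  leaf x hx := by
    obtain ⟨i, hi, h3⟩ := h.leaf (f.symm x) (fun i hi h3 => hx i hi (by rw [h3, f.apply_symm_apply]))
    refine ⟨i, hi, fun y => ?_⟩
    rw [SimpleGraph.comap_adj, h3, Equiv.symm_apply_eq]

theorem dg_comap {V V' : Type} (T : SimpleGraph V) (f : V ≃ V') (x : V') :
    dg (T.comap f.symm) x = dg T (f.symm x) := by
  unfold dg
  rw [← Set.ncard_image_of_injective (T.neighborSet (f.symm x)) f.injective]
  congr 1
  ext y
  rw [SimpleGraph.mem_neighborSet, SimpleGraph.comap_adj, Set.mem_image]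
  constructor
  · intro h
    exact ⟨f.symm y, h, f.apply_symm_apply y⟩
  · rintro ⟨z, hz, rfl⟩
    rw [f.symm_apply_apply]
    exact hz

/-- values of `ZMod 2` as booleans -/
def zb : ZMod 2 ≃ Bool where
  toFun a := decide (a = 1)
  invFun b := if b then 1 else 0
  left_inv := by decide
  right_inv := by decide

theorem main_b (r : ℕ) (hr : 2 ≤ r) : ∃ T : SimpleGraph (Fin (2 ^ r) → Bool),
    (∀ x y, T.Adj x y → ∃! i, x i ≠ y i) ∧ T.IsTree ∧
    (∃ m, Nonempty (T.induce {v | dg T v ≠ 1} ≃g pathGraph m)) ∧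
    Set.range (dg T) = {1, 2, 2 ^ r} ∧ 2 ^ r * {v | dg T v = 2 ^ r}.ncard = 2 ^ 2 ^ r := by
  classical
  have h2 : ∀ α : Fin r → ZMod 2, α + α = 0 := fun α => funext fun i => CharTwo.add_self_eq_zero (α i)
  have hcard : Fintype.card (Fin r → ZMod 2) = 2 ^ r := by rw [Fintype.card_fun, ZMod.card, Fintype.card_fin]
  obtain ⟨M, c, a, b, h⟩ := exists_chain h2
  have h4 : 4 ≤ 2 ^ r := by
    calc 4 = 2 ^ 2 := by norm_num
      _ ≤ 2 ^ r := Nat.pow_le_pow_right (by norm_num) hr
  let φ : (Fin r → ZMod 2) ≃ Fin (2 ^ r) := Fintype.equivFinOfCardEq hcard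
  let f : ((Fin r → ZMod 2) → ZMod 2) ≃ (Fin (2 ^ r) → Bool) := Equiv.arrowCongr φ zb
  have hf : ∀ x i, f x i = zb (x (φ.symm i)) := fun x i => rfl
  have hcat := h.cat.comap f
  have hk : ∀ x : Fin (2 ^ r) → Bool, _ := fun x => h.kinds (f.symm x)
  have hset : {v | dg (h.graph.comap f.symm) v ≠ 1} = {x | ∃ i < 4 * M - 2, f (spine c a b i) = x} := by
    ext x
    rw [Set.mem_ofPred_eq, Set.mem_ofPred_eq, dg_comap]
    constructor
    · intro hx
      rcases hk x with ⟨h5, h6⟩ | ⟨h5, ⟨i, hi, h6⟩, h7⟩ | ⟨h5, h6, h7⟩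
      · obtain ⟨i, hi, h7⟩ := h.cen h5
        exact ⟨i, hi, by rw [h7, f.apply_symm_apply]⟩
      · exact ⟨i, hi, by rw [h6, f.apply_symm_apply]⟩
      · exact (hx h7).elim
    · rintro ⟨i, hi, rfl⟩
      rw [f.symm_apply_apply]
      rcases hk (f (spine c a b i)) with ⟨h5, h6⟩ | ⟨h5, _, h7⟩ | ⟨h5, h6, h7⟩
      · rw [f.symm_apply_apply] at h6
        rw [h6, hcard]
        omega
      · rw [f.symm_apply_apply] at h7
        rw [h7]
        norm_num
      · exact (h6 i hi (by rw [f.symm_apply_apply])).elim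
  refine ⟨h.graph.comap f.symm, ?_, hcat.isTree, ⟨4 * M - 2, ?_⟩, ?_, ?_⟩
  · intro x y hxy
    obtain ⟨β, hβ⟩ := h.adj_cube hxy
    have hy : y = f (f.symm x + e β) := by rw [← hβ, f.apply_symm_apply]
    have hx : x = f (f.symm x) := (f.apply_symm_apply x).symm
    have key : ∀ i, x i ≠ y i ↔ i = φ β := by
      intro i
      rw [hy]
      conv_lhs => rw [hx]
      rw [hf, hf, f.symm_apply_apply, zb.injective.ne_iff, Pi.add_apply, ne_eq, left_eq_add]
      rw [← φ.symm_apply_eq]
      constructor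
      · intro h5
        by_contra h6
        exact h5 (by simp [e, h6])
      · intro h5
        rw [h5]
        simp [e]
    exact ⟨φ β, (key _).2 rfl, fun i hi => (key i).1 hi⟩
  · rw [hset]
    exact hcat.path
  · ext m
    rw [Set.mem_range, Set.mem_insert_iff, Set.mem_insert_iff, Set.mem_singleton_iff]
    constructor
    · rintro ⟨x, rfl⟩
      rw [dg_comap]
      rcases hk x with ⟨h5, h6⟩ | ⟨h5, _, h7⟩ | ⟨h5, h6, h7⟩
      · exact Or.inr (Or.inr (by rw [h6, hcard]))
      · exact Or.inr (Or.inl h7)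
      · exact Or.inl h7
    · have hc0 : c 0 ∈ {x | sy h2 x = 0} := h.sy0 0 h.pos
      have hM2 : 1 < M := by
        by_contra hM
        have hM1 : M = 1 := by have := h.pos; omega
        let α : Fin r → ZMod 2 := Pi.single ⟨0, by omega⟩ 1
        let β : Fin r → ZMod 2 := Pi.single ⟨1, by omega⟩ 1
        have hα : α ≠ 0 := fun h5 => by
          have := congrFun h5 ⟨0, by omega⟩
          simp [α] at this
        have hβ : β ≠ 0 := fun h5 => by
          have := congrFun h5 ⟨1, by omega⟩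
          simp [β] at this
        have hne : α ≠ β := fun h5 => by
          have := congrFun h5 ⟨0, by omega⟩
          simp [α, β] at this
        obtain ⟨i, hi, h5⟩ := h.all 0 (map_zero _) (map_zero _)
        obtain ⟨j, hj, h6⟩ := h.all _ (sy_gen h2 α β) (pa_gen α β)
        have e1 : i = j := by omega
        rw [e1, h6] at h5
        have h7 := congrFun h5 0
        have ha : α + β ≠ 0 := ab0 h2 hne
        simp [e, hα.symm, hβ.symm, ha.symm] at h7
      rintro (rfl | rfl | rfl)
      · have hb : (Pi.single ⟨0, by omega⟩ 1 : Fin r → ZMod 2) ≠ 0 := fun h5 => by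
          have := congrFun h5 ⟨0, by omega⟩
          simp at this
        refine ⟨f (c 0 + e (Pi.single ⟨0, by omega⟩ 1)), ?_⟩
        rw [dg_comap, f.symm_apply_apply]
        refine h.dg_leaf fun i hi h5 => ?_
        have h6 := ctr_add h2 (h.sy0 0 h.pos) (Pi.single ⟨0, by omega⟩ 1 : Fin r → ZMod 2)
        have h8 : sy h2 (c 0 + e (Pi.single ⟨0, by omega⟩ 1 : Fin r → ZMod 2)) ≠ 0 := by
          rw [map_add, sy_e, h.sy0 0 h.pos, zero_add]
          exact hb
        rw [← h5] at h6 h8
        obtain ⟨k, hk', h9 | h9 | ⟨h9, h10⟩ | ⟨h9, h10⟩⟩ := pos_cases h.pos hi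
        · rw [h9, sp0] at h8
          exact h8 (h.sy0 k hk')
        · rw [h9, sp1, map_add, sy_e, h.sy0 k hk', zero_add] at h8
          exact h8 rfl
        · rw [h9, sp2, h.ctr2 h10] at h6
          have h11 := congrArg (pa (G := Fin r → ZMod 2)) h6
          rw [map_add, pa_e, h.pa0 k hk', h.pa0 0 h.pos] at h11
          exact absurd h11 (by decide)
        · rw [h9, sp3, h.sp3c h10, h.ctr3 h10] at h6
          have := h.inj _ _ h10 h.pos h6
          omega
      · refine ⟨f (spine c a b 2), ?_⟩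
        rw [dg_comap, f.symm_apply_apply]
        refine h.dg_link (i := 1) (by omega) ?_
        have e1 := sp2 c a b 0
        rw [Nat.mul_zero, Nat.zero_add] at e1
        rw [e1, h.sy2 (by omega)]
        exact h.a0 0 (by omega)
      · refine ⟨f (c 0), ?_⟩
        rw [dg_comap, f.symm_apply_apply, h.dg_cen (h.sy0 0 h.pos), hcard]
  · have e1 : {v | dg (h.graph.comap f.symm) v = 2 ^ r} = f '' {x | sy h2 x = 0} := by
      ext x
      rw [Set.mem_ofPred_eq, dg_comap, Set.mem_image]
      constructor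
      · intro hx
        refine ⟨f.symm x, ?_, f.apply_symm_apply x⟩
        rcases hk x with ⟨h5, h6⟩ | ⟨h5, _, h7⟩ | ⟨h5, h6, h7⟩
        · exact h5
        · omega
        · omega
      · rintro ⟨y, hy, rfl⟩
        rw [f.symm_apply_apply, h.dg_cen hy, hcard]
    rw [e1, Set.ncard_image_of_injective _ f.injective, ← hcard]
    exact card_cen h2

theorem main_a (n : ℕ) (T : SimpleGraph (Fin n → Bool)) (hQ : ∀ x y, T.Adj x y → ∃! i, x i ≠ y i)
    (hT : T.IsTree) : n * {v | dg T v = n}.ncard ≤ 2 ^ n := by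
  classical
  have h1 : ∀ u v, T.Adj u v → hammingDist u v = 1 := by
    intro u v huv
    obtain ⟨i, hi, h3⟩ := hQ u v huv
    unfold hammingDist
    rw [Finset.card_eq_one]
    refine ⟨i, ?_⟩
    ext j
    rw [Finset.mem_filter, Finset.mem_singleton]
    constructor
    · intro hj
      exact h3 j hj.2
    · rintro rfl
      exact ⟨Finset.mem_univ _, hi⟩
  have h2 := H8.full_degree_bound T hT.isAcyclic h1
  have h3 : {v | dg T v = n} = ↑(Finset.univ.filter (fun v => T.degree v = n)) := by
    ext v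
    rw [Finset.mem_coe, Finset.mem_filter, Set.mem_ofPred_eq]
    have : dg T v = T.degree v := by
      unfold dg
      rw [Set.ncard_eq_toFinset_card']
      rfl
    rw [this]
    exact ⟨fun h => ⟨Finset.mem_univ _, h⟩, fun h => h.2⟩
  rw [h3, Set.ncard_coe_finset]
  exact h2

end Pool.Agent.H90.CB
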