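import Pool.Agent.H90.CB.Cat

/-!
MP_582f2d_co: two caterpillars with the same degrees along the spine are isomorphic.
-/

set_option autoImplicit false

namespace Pool.Agent.H90.CB

open SimpleGraph

/-- the leaves at a position of the spine -/
def At {V : Type} (T : SimpleGraph V) (L : ℕ) (S : ℕ → V) (i : ℕ) : Set V :=
  {x | (∀ j < L, S j ≠ x) ∧ T.Adj x (S i)}

/-- the model of the adjacency -/
def Rm {L : ℕ} {A : Fin L → Type} : (Fin L ⊕ (Σ i, A i)) → (Fin L ⊕ (Σ i, A i)) → Prop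
  | Sum.inl i, Sum.inl j => (i : ℕ) + 1 = j ∨ (j : ℕ) + 1 = i
  | Sum.inl i, Sum.inr z => i = z.1
  | Sum.inr z, Sum.inl i => i = z.1
  | Sum.inr _, Sum.inr _ => False

/-- the vertices of a caterpillar -/
def em {V : Type} {T : SimpleGraph V} {L : ℕ} {S : ℕ → V} :
    (Fin L ⊕ (Σ i : Fin L, At T L S i)) → V
  | Sum.inl i => S i
  | Sum.inr z => z.2.1

theorem Cat.at_adj {V : Type} {T : SimpleGraph V} {L : ℕ} {S : ℕ → V} (h : Cat T L S) {i : ℕ} {x : V}
    (hx : x ∈ At T L S i) (y : V) : T.Adj x y ↔ y = S i := by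
  obtain ⟨j, _, h3⟩ := h.leaf x hx.1
  have h4 := (h3 _).1 hx.2
  rw [h3, h4]

theorem Cat.em_bij {V : Type} {T : SimpleGraph V} {L : ℕ} {S : ℕ → V} (h : Cat T L S) :
    Function.Bijective (em (T := T) (L := L) (S := S)) := by
  constructor
  · rintro (i | ⟨i, x, hx⟩) (j | ⟨j, y, hy⟩) hij
    · exact congrArg Sum.inl (Fin.ext (h.inj _ _ i.2 j.2 hij))
    · exact (hy.1 i i.2 hij).elim
    · exact (hx.1 j j.2 hij.symm).elim
    · have hxy : x = y := hij
      subst hxy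
      have h3 := (h.at_adj hx _).1 hy.2
      have h4 : i = j := Fin.ext (h.inj _ _ i.2 j.2 h3.symm)
      subst h4
      rfl
  · intro x
    by_cases hs : ∃ i < L, S i = x
    · obtain ⟨i, hi, rfl⟩ := hs
      exact ⟨Sum.inl ⟨i, hi⟩, rfl⟩
    · push Not at hs
      obtain ⟨i, hi, h3⟩ := h.leaf x hs
      exact ⟨Sum.inr ⟨⟨i, hi⟩, x, hs, (h3 _).2 rfl⟩, rfl⟩

theorem Cat.em_adj {V : Type} {T : SimpleGraph V} {L : ℕ} {S : ℕ → V} (h : Cat T L S)
    (p q : Fin L ⊕ (Σ i : Fin L, At T L S i)) : T.Adj (em p) (em q) ↔ Rm p q := by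
  rcases p with i | ⟨i, x, hx⟩ <;> rcases q with j | ⟨j, y, hy⟩
  · exact h.adj _ _ i.2 j.2
  · show T.Adj (S i) y ↔ i = j
    rw [SimpleGraph.adj_comm, h.at_adj hy]
    exact ⟨fun h3 => Fin.ext (h.inj _ _ i.2 j.2 h3), fun h3 => by rw [h3]⟩
  · show T.Adj x (S j) ↔ j = i
    rw [h.at_adj hx]
    exact ⟨fun h3 => Fin.ext (h.inj _ _ j.2 i.2 h3), fun h3 => by rw [h3]⟩
  · show T.Adj x y ↔ False
    rw [h.at_adj hx]
    exact ⟨fun h3 => hy.1 i i.2 h3.symm, False.elim⟩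

theorem Cat.card_at {V : Type} [Finite V] {T : SimpleGraph V} {L : ℕ} {S : ℕ → V} (h : Cat T L S)
    {i : ℕ} (hi : i < L) : (T.neighborSet (S i)).ncard =
      (At T L S i).ncard + ((Finset.range L).filter fun j => i + 1 = j ∨ j + 1 = i).card := by
  classical
  have e1 : T.neighborSet (S i) = At T L S i ∪
      S '' ((Finset.range L).filter fun j => i + 1 = j ∨ j + 1 = i : Finset ℕ) := by
    ext x
    rw [SimpleGraph.mem_neighborSet, Set.mem_union, Set.mem_image]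
    constructor
    · intro hx
      by_cases hs : ∃ j < L, S j = x
      · obtain ⟨j, hj, rfl⟩ := hs
        refine Or.inr ⟨j, ?_, rfl⟩
        rw [Finset.mem_coe, Finset.mem_filter, Finset.mem_range]
        exact ⟨hj, (h.adj i j hi hj).1 hx⟩
      · push Not at hs
        exact Or.inl ⟨hs, hx.symm⟩
    · rintro (hx | ⟨j, hj, rfl⟩)
      · exact hx.2.symm
      · rw [Finset.mem_coe, Finset.mem_filter, Finset.mem_range] at hj
        exact (h.adj i j hi hj.1).2 hj.2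
  rw [e1, Set.ncard_union_eq, Set.InjOn.ncard_image, Set.ncard_coe_finset]
  · intro j hj k hk hjk
    rw [Finset.mem_coe, Finset.mem_filter, Finset.mem_range] at hj hk
    exact h.inj j k hj.1 hk.1 hjk
  · rw [Set.disjoint_left]
    rintro x hx ⟨j, hj, rfl⟩
    rw [Finset.mem_coe, Finset.mem_filter, Finset.mem_range] at hj
    exact hx.1 j hj.1 rfl

theorem cat_iso {V V' : Type} [Finite V] [Finite V'] {T : SimpleGraph V} {T' : SimpleGraph V'} {L : ℕ}
    {S : ℕ → V} {S' : ℕ → V'} (h : Cat T L S) (h' : Cat T' L S')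
    (hd : ∀ i < L, (T.neighborSet (S i)).ncard = (T'.neighborSet (S' i)).ncard) : Nonempty (T ≃g T') := by
  have hσ : ∀ i : Fin L, Nonempty (At T L S i ≃ At T' L S' i) := by
    intro i
    have h3 := hd i i.2
    rw [h.card_at i.2, h'.card_at i.2] at h3
    have h4 := Nat.add_right_cancel h3
    exact Finite.card_eq.1 (by rw [Nat.card_coe_set_eq, Nat.card_coe_set_eq, h4])
  let σ := fun i => (hσ i).some
  let E := Equiv.ofBijective _ h.em_bij
  let E' := Equiv.ofBijective _ h'.em_bij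
  let F : (Fin L ⊕ (Σ i : Fin L, At T L S i)) ≃ (Fin L ⊕ (Σ i : Fin L, At T' L S' i)) :=
    Equiv.sumCongr (Equiv.refl _) (Equiv.sigmaCongrRight σ)
  have hR : ∀ p q, Rm (F p) (F q) ↔ Rm p q := by
    rintro (i | ⟨i, x⟩) (j | ⟨j, y⟩) <;> exact Iff.rfl
  refine ⟨⟨(E.symm.trans F).trans E', ?_⟩⟩
  intro x y
  show T'.Adj (em (F (E.symm x))) (em (F (E.symm y))) ↔ T.Adj x y
  rw [h'.em_adj, hR, ← h.em_adj]
  show T.Adj (E (E.symm x)) (E (E.symm y)) ↔ _
  rw [E.apply_symm_apply, E.apply_symm_apply]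

end Pool.Agent.H90.CB
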