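import Pool.Agent.H90.CB.Spine
import Pool.Agent.H90.CB.Iso

/-!
MP_582f2d_co: characterisation of the spanning caterpillars of the cube with `2 ^ n / n` vertices of full degree.
-/

set_option autoImplicit false

namespace Pool.Agent.H90.CB

open SimpleGraph

/-- `T` is isomorphic to a spanning tree of the cube -/
def Sp {V : Type} (T : SimpleGraph V) (n : ℕ) : Prop :=
  ∃ T' : SimpleGraph (Fin n → Bool), (∀ x y, T'.Adj x y → ∃! i, x i ≠ y i) ∧ T'.IsTree ∧ Nonempty (T ≃g T')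

theorem dg_iso {V V' : Type} {T : SimpleGraph V} {T' : SimpleGraph V'} (f : T ≃g T') (x : V) :
    dg T' (f x) = dg T x := by
  unfold dg
  rw [← Set.ncard_image_of_injective (T.neighborSet x) f.injective]
  congr 1
  ext y
  rw [SimpleGraph.mem_neighborSet, Set.mem_image]
  constructor
  · intro h
    refine ⟨f.symm y, ?_, f.apply_symm_apply y⟩
    rw [SimpleGraph.mem_neighborSet, ← f.map_adj_iff, f.apply_symm_apply]
    exact h
  · rintro ⟨z, hz, rfl⟩
    exact f.map_adj_iff.2 hz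

theorem ncard_iso {V V' : Type} {T : SimpleGraph V} {T' : SimpleGraph V'} (f : T ≃g T') (d : ℕ) :
    {v | dg T v = d}.ncard = {v | dg T' v = d}.ncard := by
  rw [← Set.ncard_image_of_injective {v | dg T v = d} f.injective]
  congr 1
  ext y
  rw [Set.mem_image, Set.mem_ofPred_eq]
  constructor
  · rintro ⟨x, hx, rfl⟩
    rw [dg_iso]
    exact hx
  · intro hy
    refine ⟨f.symm y, ?_, f.apply_symm_apply y⟩
    have := dg_iso f (f.symm y)
    rw [f.apply_symm_apply] at this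
    rw [Set.mem_ofPred_eq, ← this]
    exact hy

/-- the spine of an isomorphic graph -/
theorem spine_iso {V V' : Type} {T : SimpleGraph V} {T' : SimpleGraph V'} (f : T ≃g T') {m : ℕ}
    (ι : T.induce {v | dg T v ≠ 1} ≃g pathGraph m) :
    ∃ ι' : T'.induce {v | dg T' v ≠ 1} ≃g pathGraph m, ∀ i, (ι'.symm i).1 = f (ι.symm i).1 := by
  let E : T.induce {v | dg T v ≠ 1} ≃g T'.induce {v | dg T' v ≠ 1} :=
    { toFun := fun x => ⟨f x.1, by
        show dg T' (f x.1) ≠ 1
        rw [dg_iso]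
        exact x.2⟩
      invFun := fun y => ⟨f.symm y.1, by
        show dg T (f.symm y.1) ≠ 1
        rw [← dg_iso f, f.apply_symm_apply]
        exact y.2⟩
      left_inv := fun x => Subtype.ext (f.symm_apply_apply _)
      right_inv := fun y => Subtype.ext (f.apply_symm_apply _)
      map_rel_iff' := by
        intro x y
        exact f.map_adj_iff }
  exact ⟨E.symm.trans ι, fun i => rfl⟩

/-- the bound -/
theorem bound (n : ℕ) (V : Type) (T : SimpleGraph V) (h : Sp T n) : n * {v | dg T v = n}.ncard ≤ 2 ^ n := by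
  obtain ⟨T', hQ, hT, ⟨f⟩⟩ := h
  rw [ncard_iso f]
  exact main_a n T' hQ hT

theorem size_eq {r : ℕ} (hr : 2 ≤ r) {V : Type} {T : SimpleGraph V} {m : ℕ} {S : ℕ → V}
    (h : Shape T (2 ^ r) m S) (hc : 2 ^ r * {v | dg T v = 2 ^ r}.ncard = 2 ^ 2 ^ r) :
    m = 2 ^ (2 ^ r - r + 1) - 2 := by
  have h4 : 3 ≤ 2 ^ r := by
    calc 3 ≤ 2 ^ 2 := by norm_num
      _ ≤ 2 ^ r := Nat.pow_le_pow_right (by norm_num) hr
  have h5 : r ≤ 2 ^ r := Nat.lt_two_pow_self.le
  have h6 : 2 ^ 2 ^ r = 2 ^ r * 2 ^ (2 ^ r - r) := by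
    rw [← pow_add]
    congr 1
    omega
  obtain ⟨h7, h8⟩ := h.size h4 (hc.trans h6)
  rw [h7, pow_succ]
  ring_nf

/-- the characterisation -/
theorem char (r : ℕ) (hr : 2 ≤ r) (V : Type) (T : SimpleGraph V) (hT : T.IsTree)
    (hcat : ∃ m, Nonempty (T.induce {v | dg T v ≠ 1} ≃g pathGraph m))
    (hc : 2 ^ 2 ^ r ≤ 2 ^ r * {v | dg T v = 2 ^ r}.ncard) :
    Sp T (2 ^ r) ↔ ∃ ι : T.induce {v | dg T v ≠ 1} ≃g pathGraph (2 ^ (2 ^ r - r + 1) - 2),
      ∀ i, dg T (ι.symm i).1 = if (i : ℕ) % 4 < 2 then 2 ^ r else 2 := by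
  have h4 : 4 ≤ 2 ^ r := by
    calc 4 = 2 ^ 2 := by norm_num
      _ ≤ 2 ^ r := Nat.pow_le_pow_right (by norm_num) hr
  constructor
  · intro hsp
    have hb := bound _ V T hsp
    obtain ⟨T', hQ, hT', ⟨f⟩⟩ := hsp
    obtain ⟨m, ⟨ι⟩⟩ := hcat
    obtain ⟨ι', _⟩ := spine_iso f ι
    rw [ncard_iso f] at hc hb
    obtain ⟨S, hS⟩ := shape (by omega) hQ hT'.isAcyclic hc ι'
    have hm := size_eq hr hS (le_antisymm hb hc)
    subst hm
    obtain ⟨ι₂, h5⟩ := hS.iso (by omega)
    obtain ⟨ι₃, h6⟩ := spine_iso f.symm ι₂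
    refine ⟨ι₃, fun i => ?_⟩
    rw [h6 i, dg_iso, h5 i]
  · rintro ⟨ι, hd⟩
    obtain ⟨T₀, hQ, hT₀, ⟨m, ⟨ι₀⟩⟩, _, hc₀⟩ := main_b r hr
    obtain ⟨S₀, hS₀⟩ := shape (by omega) hQ hT₀.isAcyclic hc₀.ge ι₀
    have hm := size_eq hr hS₀ hc₀
    subst hm
    obtain ⟨S, hS⟩ := shape_of_iso hT hS₀.two ι hd
    have hfin : Finite V := by
      have h5 : {v | dg T v = 2 ^ r}.Finite := by
        apply Set.finite_of_ncard_pos
        by_contra h6
        have h7 : {v | dg T v = 2 ^ r}.ncard = 0 := by omega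
        rw [h7, mul_zero] at hc
        have : 0 < 2 ^ 2 ^ r := by positivity
        omega
      -- every vertex is on the spine or in the neighbour set of a spine vertex
      have h6 : (Set.univ : Set V) ⊆ ⋃ i ∈ Finset.range (2 ^ (2 ^ r - r + 1) - 2),
          (insert (S i) (T.neighborSet (S i))) := by
        intro x _
        rw [Set.mem_iUnion₂]
        by_cases hs : ∃ i < 2 ^ (2 ^ r - r + 1) - 2, S i = x
        · obtain ⟨i, hi, rfl⟩ := hs
          exact ⟨i, Finset.mem_range.2 hi, Set.mem_insert _ _⟩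
        · push Not at hs
          obtain ⟨i, hi, h7⟩ := hS.cat.leaf x hs
          exact ⟨i, Finset.mem_range.2 hi, Set.mem_insert_of_mem _ ((h7 _).2 rfl).symm⟩
      rw [← Set.finite_univ_iff]
      refine Set.Finite.subset (Set.Finite.biUnion (Finset.finite_toSet _) fun i hi => ?_) h6
      refine Set.Finite.insert _ (Set.finite_of_ncard_pos ?_)
      have h7 := hS.deg i (Finset.mem_range.1 hi)
      unfold dg at h7
      rw [h7]
      split_ifs
      · positivity
      · norm_num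
    obtain ⟨g⟩ := cat_iso hS.cat hS₀.cat (fun i hi => by
      have h5 := hS.deg i hi
      have h6 := hS₀.deg i hi
      unfold dg at h5 h6
      rw [h5, h6])
    exact ⟨T₀, hQ, hT₀, ⟨g⟩⟩

end Pool.Agent.H90.CB
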