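import Pool.Agent.H90.CB.Uniq

/-!
MP_582f2d_co: from the degrees along the spine to the shape and back.
-/

set_option autoImplicit false

namespace Pool.Agent.H90.CB

open SimpleGraph

theorem count4 (q : ℕ) : ((Finset.range (4 * q + 2)).filter fun i => i % 4 < 2).card = 2 * q + 2 := by
  induction q with
  | zero => decide
  | succ q ih =>
    have e1 : 4 * (q + 1) + 2 = 4 * q + 2 + 1 + 1 + 1 + 1 := by ring
    rw [e1, Finset.range_add_one, Finset.range_add_one, Finset.range_add_one, Finset.range_add_one,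
      Finset.filter_insert, Finset.filter_insert, Finset.filter_insert, Finset.filter_insert,
      if_pos (by omega), if_pos (by omega), if_neg (by omega), if_neg (by omega),
      Finset.card_insert_of_notMem, Finset.card_insert_of_notMem, ih]
    · ring
    · rw [Finset.mem_filter, Finset.mem_range]
      omega
    · rw [Finset.mem_insert, Finset.mem_filter, Finset.mem_range]
      omega

/-- the number of vertices of the spine -/
theorem Shape.size {V : Type} {T : SimpleGraph V} {n m N : ℕ} {S : ℕ → V} (h : Shape T n m S) (hn : 3 ≤ n)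
    (hc : n * {v | dg T v = n}.ncard = n * N) : m = 2 * N - 2 ∧ 2 ≤ N := by
  rw [h.card hn] at hc
  have h3 := Nat.eq_of_mul_eq_mul_left (by omega) hc
  obtain ⟨q, hq⟩ : ∃ q, m = 4 * q + 2 := ⟨m / 4, by have := h.two; omega⟩
  rw [hq, count4] at h3
  omega

/-- the shape from the degrees along the spine of a tree -/
theorem shape_of_iso {V : Type} {T : SimpleGraph V} (hT : T.IsTree) {n m : ℕ} (hm : m % 4 = 2)
    (ι : T.induce {v | dg T v ≠ 1} ≃g pathGraph m)
    (hd : ∀ i : Fin m, dg T (ι.symm i).1 = if (i : ℕ) % 4 < 2 then n else 2) : ∃ S, Shape T n m S := by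
  classical
  have hm0 : 0 < m := by omega
  let S : ℕ → V := fun i => if h : i < m then (ι.symm ⟨i, h⟩).1 else (ι.symm ⟨0, hm0⟩).1
  have hS : ∀ i (h : i < m), S i = (ι.symm ⟨i, h⟩).1 := fun i h => dif_pos h
  have hsur : ∀ x, dg T x ≠ 1 → ∃ i < m, S i = x := by
    intro x hx
    refine ⟨ι ⟨x, hx⟩, (ι ⟨x, hx⟩).2, ?_⟩
    rw [hS _ (ι ⟨x, hx⟩).2]
    simp
  have hlf : ∀ x, (∀ i < m, S i ≠ x) → dg T x = 1 := by
    intro x hx
    by_contra h3
    obtain ⟨i, hi, h4⟩ := hsur x h3
    exact hx i hi h4
  refine ⟨S, ⟨⟨hm0, ?_, ?_, ?_⟩, hm, ?_, hlf⟩⟩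
  · intro i j hi hj hij
    rw [hS i hi, hS j hj] at hij
    have := ι.symm.injective (Subtype.ext hij)
    exact congrArg Fin.val this
  · intro i j hi hj
    have h3 := ι.symm.map_rel_iff (a := ⟨i, hi⟩) (b := ⟨j, hj⟩)
    rw [pathGraph_adj] at h3
    rw [hS i hi, hS j hj]
    exact h3
  · intro x hx
    have h3 := hlf x hx
    unfold dg at h3
    obtain ⟨y, hy⟩ := Set.ncard_eq_one.1 h3
    have hxy : ∀ z, T.Adj x z ↔ z = y := by
      intro z
      rw [← SimpleGraph.mem_neighborSet, hy, Set.mem_singleton_iff]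
    by_cases hys : ∃ i < m, S i = y
    · obtain ⟨i, hi, rfl⟩ := hys
      exact ⟨i, hi, hxy⟩
    · exfalso
      push Not at hys
      have h4 := hlf y hys
      unfold dg at h4
      obtain ⟨w, hw⟩ := Set.ncard_eq_one.1 h4
      have hyx : T.Adj y x := ((hxy y).2 rfl).symm
      have hyw : ∀ z, T.Adj y z ↔ z = x := by
        intro z
        have h5 : x ∈ T.neighborSet y := hyx
        rw [hw, Set.mem_singleton_iff] at h5
        rw [← SimpleGraph.mem_neighborSet, hw, Set.mem_singleton_iff, h5]
      have hcl : ∀ z, T.Reachable x z → z = x ∨ z = y := by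
        intro z hz
        obtain ⟨p⟩ := hz
        have : ∀ (u v : V) (p : T.Walk u v), (u = x ∨ u = y) → (v = x ∨ v = y) := by
          intro u v p
          induction p with
          | nil => exact id
          | cons huv _ ih =>
            intro hu
            apply ih
            rcases hu with rfl | rfl
            · exact Or.inr ((hxy _).1 huv)
            · exact Or.inl ((hyw _).1 huv)
        exact this x z p (Or.inl rfl)
      rcases hcl (S 0) (hT.connected.preconnected x (S 0)) with h5 | h5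
      · exact hx 0 hm0 h5
      · exact hys 0 hm0 h5
  · intro i hi
    rw [hS i hi, hd ⟨i, hi⟩]

/-- the degrees along the spine from the shape -/
theorem Shape.iso {V : Type} {T : SimpleGraph V} {n m : ℕ} {S : ℕ → V} (h : Shape T n m S) (hn : 3 ≤ n) :
    ∃ ι : T.induce {v | dg T v ≠ 1} ≃g pathGraph m,
      ∀ i : Fin m, dg T (ι.symm i).1 = if (i : ℕ) % 4 < 2 then n else 2 := by
  classical
  have hmem : ∀ i : Fin m, dg T (S i) ≠ 1 := by
    intro i
    rw [h.deg i i.2]
    split_ifs <;> omega
  let E : Fin m ≃ {v | dg T v ≠ 1} := Equiv.ofBijective (fun i : Fin m => (⟨S i, hmem i⟩ :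
    {v | dg T v ≠ 1})) ⟨by
      intro i j hij
      exact Fin.ext (h.cat.inj _ _ i.2 j.2 (congrArg Subtype.val hij)), by
      rintro ⟨x, hx⟩
      by_cases hs : ∃ i < m, S i = x
      · obtain ⟨i, hi, rfl⟩ := hs
        exact ⟨⟨i, hi⟩, rfl⟩
      · push Not at hs
        exact (hx (h.leaf x hs)).elim⟩
  let I : pathGraph m ≃g T.induce {v | dg T v ≠ 1} := ⟨E, by
    intro i j
    rw [pathGraph_adj]
    exact h.cat.adj _ _ i.2 j.2⟩
  refine ⟨I.symm, fun i => ?_⟩
  show dg T (S i) = _
  exact h.deg i i.2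

end Pool.Agent.H90.CB
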