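import Pool.Agent.H90.CB.Code

/-!
MP_582f2d_co: the caterpillar through all double stars.
-/

set_option autoImplicit false
set_option linter.unusedSectionVars false

namespace Pool.Agent.H90.CB

open SimpleGraph

variable {G : Type} [AddCommGroup G] [Fintype G] [DecidableEq G]

/-- the data of the chain of double stars -/
structure Chain (h2 : ∀ α : G, α + α = 0) (M : ℕ) (c : ℕ → G → ZMod 2) (a b : ℕ → G) : Prop where
  pos : 0 < M
  inj : ∀ i j, i < M → j < M → c i = c j → i = j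
  sy0 : ∀ i < M, sy h2 (c i) = 0
  pa0 : ∀ i < M, pa (c i) = 0
  all : ∀ x, sy h2 x = 0 → pa x = 0 → ∃ i < M, c i = x
  a0 : ∀ i, i + 1 < M → a i ≠ 0
  b0 : ∀ i, i + 1 < M → b i ≠ 0
  ab : ∀ i, i + 1 < M → a i ≠ b i
  step : ∀ i, i + 1 < M → c (i + 1) = c i + (e 0 + e (a i) + e (b i) + e (a i + b i))

theorem exists_chain (h2 : ∀ α : G, α + α = 0) :
    ∃ (M : ℕ) (c : ℕ → G → ZMod 2) (a b : ℕ → G), Chain h2 M c a b := by
  classical
  obtain ⟨M, c, hc⟩ := gray (A := G → ZMod 2) w2 (Set.toFinset (gens (G := G)))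
  rw [Set.coe_toFinset] at hc
  have hab : ∀ i, ∃ z : G × G, i + 1 < M → z.1 ≠ 0 ∧ z.2 ≠ 0 ∧ z.1 ≠ z.2 ∧
      c (i + 1) = c i + (e 0 + e z.1 + e z.2 + e (z.1 + z.2)) := by
    intro i
    by_cases hi : i + 1 < M
    · obtain ⟨α, β, h3, h4, h5, h6⟩ := hc.step i hi
      refine ⟨(α, β), fun _ => ⟨h3, h4, h5, ?_⟩⟩
      rw [← h6, ← add_assoc, w2, zero_add]
    · exact ⟨(0, 0), fun h => (hi h).elim⟩
  choose z hz using hab
  have hcl : ∀ i < M, sy h2 (c i) = 0 ∧ pa (c i) = 0 := by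
    intro i hi
    have h3 : AddSubgroup.closure (gens (G := G)) ≤ (sy h2).ker ⊓ (pa (G := G)).ker := by
      rw [AddSubgroup.closure_le]
      rintro x ⟨α, β, _, _, _, rfl⟩
      exact ⟨sy_gen h2 α β, pa_gen α β⟩
    exact h3 (hc.cl i hi)
  exact ⟨M, c, fun i => (z i).1, fun i => (z i).2, ⟨hc.pos, hc.inj, fun i hi => (hcl i hi).1,
    fun i hi => (hcl i hi).2, fun x hx hp => hc.mem w2 (span h2 _ x hx hp le_rfl),
    fun i hi => (hz i hi).1, fun i hi => (hz i hi).2.1, fun i hi => (hz i hi).2.2.1,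
    fun i hi => (hz i hi).2.2.2⟩⟩

/-- the spine -/
def spine (c : ℕ → G → ZMod 2) (a b : ℕ → G) (i : ℕ) : G → ZMod 2 :=
  if i % 4 = 0 then c (i / 4) else if i % 4 = 1 then c (i / 4) + e 0
  else if i % 4 = 2 then c (i / 4) + e 0 + e (a (i / 4))
  else c (i / 4) + e 0 + e (a (i / 4)) + e (b (i / 4))

section

variable {h2 : ∀ α : G, α + α = 0} {M : ℕ} {c : ℕ → G → ZMod 2} {a b : ℕ → G}

theorem sp0 (c : ℕ → G → ZMod 2) (a b : ℕ → G) (j : ℕ) : spine c a b (4 * j) = c j := by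
  unfold spine
  rw [if_pos (by omega)]
  congr 1
  omega

theorem sp1 (c : ℕ → G → ZMod 2) (a b : ℕ → G) (j : ℕ) : spine c a b (4 * j + 1) = c j + e 0 := by
  unfold spine
  rw [if_neg (by omega), if_pos (by omega)]
  congr 2
  omega

theorem sp2 (c : ℕ → G → ZMod 2) (a b : ℕ → G) (j : ℕ) :
    spine c a b (4 * j + 2) = c j + e 0 + e (a j) := by
  unfold spine
  have h : (4 * j + 2) / 4 = j := by omega
  rw [if_neg (by omega), if_neg (by omega), if_pos (by omega), h]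

theorem sp3 (c : ℕ → G → ZMod 2) (a b : ℕ → G) (j : ℕ) :
    spine c a b (4 * j + 3) = c j + e 0 + e (a j) + e (b j) := by
  unfold spine
  have h : (4 * j + 3) / 4 = j := by omega
  rw [if_neg (by omega), if_neg (by omega), if_neg (by omega), h]

/-- case distinction for the positions on the spine -/
theorem pos_cases (hM : 0 < M) {i : ℕ} (hi : i < 4 * M - 2) :
    ∃ j < M, i = 4 * j ∨ i = 4 * j + 1 ∨ (i = 4 * j + 2 ∧ j + 1 < M) ∨ (i = 4 * j + 3 ∧ j + 1 < M) := by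
  refine ⟨i / 4, by omega, ?_⟩
  omega

theorem Chain.sp3c (h : Chain h2 M c a b) {j : ℕ} (hj : j + 1 < M) :
    c j + e 0 + e (a j) + e (b j) = c (j + 1) + e (a j + b j) := by
  rw [h.step j hj]
  have : c j + (e 0 + e (a j) + e (b j) + e (a j + b j)) + e (a j + b j) =
      c j + e 0 + e (a j) + e (b j) + (e (a j + b j) + e (a j + b j)) := by abel
  rw [this, w2, add_zero]

theorem ab0 (h2 : ∀ α : G, α + α = 0) {α β : G} (h : α ≠ β) : α + β ≠ 0 := by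
  intro h3
  apply h
  have := add_eq_zero_iff_eq_neg.1 h3
  rw [this, neg_eq_of_add_eq_zero_left (h2 β)]

theorem Chain.sy2 (h : Chain h2 M c a b) {j : ℕ} (hj : j + 1 < M) :
    sy h2 (c j + e 0 + e (a j)) = a j := by
  rw [map_add, map_add, sy_e, sy_e, h.sy0 j (by omega), zero_add, zero_add]

theorem Chain.sy3 (h : Chain h2 M c a b) {j : ℕ} (hj : j + 1 < M) :
    sy h2 (c (j + 1) + e (a j + b j)) = a j + b j := by
  rw [map_add, sy_e, h.sy0 _ hj, zero_add]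

theorem Chain.ctr2 (h : Chain h2 M c a b) {j : ℕ} (hj : j + 1 < M) :
    ctr h2 (c j + e 0 + e (a j)) = c j + e 0 :=
  ctr_add h2 (by rw [map_add, sy_e, h.sy0 j (by omega), zero_add]) _

theorem Chain.ctr3 (h : Chain h2 M c a b) {j : ℕ} (hj : j + 1 < M) :
    ctr h2 (c (j + 1) + e (a j + b j)) = c (j + 1) :=
  ctr_add h2 (h.sy0 _ hj) _

/-- the type of a spine vertex: syndrome zero or not, and the parity -/
theorem Chain.inj' (h : Chain h2 M c a b) {i j : ℕ} (hi : i < 4 * M - 2) (hj : j < 4 * M - 2)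
    (hij : spine c a b i = spine c a b j) : i = j := by
  have p01 : (0 : ZMod 2) ≠ 1 := by decide
  have p11 : (1 : ZMod 2) + 1 = 0 := by decide
  have key : ∀ {i : ℕ}, i < 4 * M - 2 → ∃ k < M,
      (i = 4 * k ∧ sy h2 (spine c a b i) = 0 ∧ pa (spine c a b i) = 0 ∧ spine c a b i = c k) ∨
      (i = 4 * k + 1 ∧ sy h2 (spine c a b i) = 0 ∧ pa (spine c a b i) = 1 ∧ spine c a b i = c k + e 0) ∨
      (i = 4 * k + 2 ∧ sy h2 (spine c a b i) ≠ 0 ∧ pa (spine c a b i) = 0 ∧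
        ctr h2 (spine c a b i) = c k + e 0) ∨
      (i = 4 * k + 3 ∧ k + 1 < M ∧ sy h2 (spine c a b i) ≠ 0 ∧ pa (spine c a b i) = 1 ∧
        ctr h2 (spine c a b i) = c (k + 1)) := by
    intro i hi
    obtain ⟨k, hk, h3 | h3 | ⟨h3, h4⟩ | ⟨h3, h4⟩⟩ := pos_cases h.pos hi
    · refine ⟨k, hk, Or.inl ⟨h3, ?_⟩⟩
      rw [h3, sp0]
      exact ⟨h.sy0 k hk, h.pa0 k hk, rfl⟩
    · refine ⟨k, hk, Or.inr (Or.inl ⟨h3, ?_⟩)⟩
      rw [h3, sp1]
      exact ⟨by rw [map_add, sy_e, h.sy0 k hk, zero_add], by rw [map_add, pa_e, h.pa0 k hk, zero_add], rfl⟩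
    · refine ⟨k, hk, Or.inr (Or.inr (Or.inl ⟨h3, ?_⟩))⟩
      rw [h3, sp2]
      exact ⟨by rw [h.sy2 h4]; exact h.a0 k h4,
        by rw [map_add, map_add, pa_e, pa_e, h.pa0 k hk, zero_add, p11], h.ctr2 h4⟩
    · refine ⟨k, hk, Or.inr (Or.inr (Or.inr ⟨h3, h4, ?_⟩))⟩
      rw [h3, sp3, h.sp3c h4]
      exact ⟨by rw [h.sy3 h4]; exact ab0 h2 (h.ab k h4),
        by rw [map_add, pa_e, h.pa0 _ h4, zero_add], h.ctr3 h4⟩
  obtain ⟨k, hk, hk'⟩ := key hi
  obtain ⟨l, hl, hl'⟩ := key hj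
  rw [hij] at hk'
  rcases hk' with ⟨e1, s1, q1, c1⟩ | ⟨e1, s1, q1, c1⟩ | ⟨e1, s1, q1, c1⟩ | ⟨e1, m1, s1, q1, c1⟩ <;>
  rcases hl' with ⟨e2, s2, q2, c2⟩ | ⟨e2, s2, q2, c2⟩ | ⟨e2, s2, q2, c2⟩ | ⟨e2, m2, s2, q2, c2⟩
  · have := h.inj k l hk hl (c1.symm.trans c2)
    omega
  · exact (p01 (q1.symm.trans q2)).elim
  · exact (s2 s1).elim
  · exact (s2 s1).elim
  · exact (p01 (q2.symm.trans q1)).elim
  · have := h.inj k l hk hl (add_right_cancel (c1.symm.trans c2))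
    omega
  · exact (s2 s1).elim
  · exact (s2 s1).elim
  · exact (s1 s2).elim
  · exact (s1 s2).elim
  · have := h.inj k l hk hl (add_right_cancel (c1.symm.trans c2))
    omega
  · exact (p01 (q1.symm.trans q2)).elim
  · exact (s1 s2).elim
  · exact (s1 s2).elim
  · exact (p01 (q2.symm.trans q1)).elim
  · have := h.inj (k + 1) (l + 1) m1 m2 (c1.symm.trans c2)
    omega

/-- consecutive spine vertices are neighbours in the cube -/
theorem Chain.next (h : Chain h2 M c a b) {i : ℕ} (hi : i + 1 < 4 * M - 2) :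
    ∃ β, spine c a b (i + 1) = spine c a b i + e β := by
  obtain ⟨k, hk, h3 | h3 | ⟨h3, h4⟩ | ⟨h3, h4⟩⟩ := pos_cases h.pos (show i < 4 * M - 2 by omega)
  · exact ⟨0, by rw [h3, sp0, sp1]⟩
  · exact ⟨a k, by rw [h3, sp1, sp2]⟩
  · exact ⟨b k, by rw [h3, sp2, sp3]⟩
  · refine ⟨a k + b k, ?_⟩
    have e1 : i + 1 = 4 * (k + 1) := by omega
    rw [e1, sp0, h3, sp3, h.sp3c h4, add_assoc, w2, add_zero]

theorem Chain.cen (h : Chain h2 M c a b) {x : G → ZMod 2} (hx : sy h2 x = 0) :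
    ∃ i < 4 * M - 2, spine c a b i = x := by
  have hp : pa x = 0 ∨ pa x = 1 := by
    generalize pa x = z
    revert z
    decide
  have hM := h.pos
  rcases hp with hp | hp
  · obtain ⟨i, hi, h3⟩ := h.all x hx hp
    exact ⟨4 * i, by omega, by rw [sp0, h3]⟩
  · obtain ⟨i, hi, h3⟩ := h.all (x + e 0) (by rw [map_add, sy_e, hx, zero_add])
      (by rw [map_add, pa_e, hp]; decide)
    exact ⟨4 * i + 1, by omega, by rw [sp1, h3, add_assoc, w2, add_zero]⟩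

/-- the caterpillar -/
def tree (h2 : ∀ α : G, α + α = 0) (M : ℕ) (c : ℕ → G → ZMod 2) (a b : ℕ → G) (x y : G → ZMod 2) : Prop :=
  (∃ i, i + 1 < 4 * M - 2 ∧ ((spine c a b i = x ∧ spine c a b (i + 1) = y) ∨
    (spine c a b i = y ∧ spine c a b (i + 1) = x))) ∨
  ((∀ i < 4 * M - 2, spine c a b i ≠ x) ∧ y = ctr h2 x) ∨
  ((∀ i < 4 * M - 2, spine c a b i ≠ y) ∧ x = ctr h2 y)

/-- the caterpillar as a graph -/
def Chain.graph (h : Chain h2 M c a b) : SimpleGraph (G → ZMod 2) where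
  Adj := tree h2 M c a b
  symm := ⟨by
    rintro x y (⟨i, hi, h3 | h3⟩ | h3 | h3)
    · exact Or.inl ⟨i, hi, Or.inr h3⟩
    · exact Or.inl ⟨i, hi, Or.inl h3⟩
    · exact Or.inr (Or.inr h3)
    · exact Or.inr (Or.inl h3)⟩
  loopless := ⟨by
    rintro x (⟨i, hi, ⟨h3, h4⟩ | ⟨h3, h4⟩⟩ | ⟨_, h3⟩ | ⟨_, h3⟩)
    · have := h.inj' (by omega) hi (h3.trans h4.symm)
      omega
    · have := h.inj' (by omega) hi (h3.trans h4.symm)
      omega
    · exact ctr_ne h2 x h3.symm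
    · exact ctr_ne h2 x h3.symm⟩

theorem Chain.graph_adj (h : Chain h2 M c a b) (x y : G → ZMod 2) :
    h.graph.Adj x y ↔ tree h2 M c a b x y := Iff.rfl

theorem Chain.cat (h : Chain h2 M c a b) : Cat h.graph (4 * M - 2) (spine c a b) where
  pos := by
    have := h.pos
    omega
  inj i j hi hj hij := h.inj' hi hj hij
  adj i j hi hj := by
    rw [h.graph_adj]
    constructor
    · rintro (⟨k, hk, ⟨h3, h4⟩ | ⟨h3, h4⟩⟩ | ⟨h3, _⟩ | ⟨h3, _⟩)
      · have e1 := h.inj' (by omega) hi h3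
        have e2 := h.inj' hk hj h4
        omega
      · have e1 := h.inj' (by omega) hj h3
        have e2 := h.inj' hk hi h4
        omega
      · exact (h3 i hi rfl).elim
      · exact (h3 j hj rfl).elim
    · rintro (h3 | h3)
      · exact Or.inl ⟨i, by omega, Or.inl ⟨rfl, by rw [h3]⟩⟩
      · exact Or.inl ⟨j, by omega, Or.inr ⟨rfl, by rw [h3]⟩⟩
  leaf x hx := by
    obtain ⟨i, hi, h3⟩ := h.cen (sy_ctr h2 x)
    refine ⟨i, hi, fun y => ?_⟩
    rw [h.graph_adj, h3]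
    constructor
    · rintro (⟨k, hk, ⟨h4, h5⟩ | ⟨h4, h5⟩⟩ | ⟨_, h4⟩ | ⟨h4, h5⟩)
      · exact (hx k (by omega) h4).elim
      · exact (hx (k + 1) hk h5).elim
      · exact h4
      · obtain ⟨l, hl, h6⟩ := h.cen (sy_ctr h2 y)
        exact (hx l hl (h6.trans h5.symm)).elim
    · intro h4
      exact Or.inr (Or.inl ⟨hx, h4⟩)

theorem Chain.adj_cube (h : Chain h2 M c a b) {x y : G → ZMod 2} (hxy : h.graph.Adj x y) :
    ∃ β, y = x + e β := by
  rcases hxy with ⟨i, hi, ⟨h3, h4⟩ | ⟨h3, h4⟩⟩ | ⟨_, h3⟩ | ⟨_, h3⟩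
  · obtain ⟨β, hβ⟩ := h.next hi
    exact ⟨β, by rw [← h4, ← h3, hβ]⟩
  · obtain ⟨β, hβ⟩ := h.next hi
    exact ⟨β, by rw [← h4, ← h3, hβ, add_assoc, w2, add_zero]⟩
  · exact ⟨_, h3⟩
  · exact ⟨_, eq_ctr h2 h3⟩

/-- a centre is adjacent to all its neighbours in the cube -/
theorem Chain.adj_cen (h : Chain h2 M c a b) {x : G → ZMod 2} (hx : sy h2 x = 0) (β : G) :
    h.graph.Adj x (x + e β) := by
  rw [h.graph_adj]
  have hM := h.pos
  by_cases hy : ∀ i < 4 * M - 2, spine c a b i ≠ x + e β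
  · exact Or.inr (Or.inr ⟨hy, (ctr_add h2 hx β).symm⟩)
  push Not at hy
  obtain ⟨i, hi, h3⟩ := hy
  have hs : sy h2 (x + e β) = β := by rw [map_add, sy_e, hx, zero_add]
  have hct := ctr_add h2 hx β
  obtain ⟨k, hk, h4 | h4 | ⟨h4, h5⟩ | ⟨h4, h5⟩⟩ := pos_cases h.pos hi
  · left
    refine ⟨i, by omega, Or.inr ⟨h3, ?_⟩⟩
    rw [h4, sp0] at h3
    rw [h4, sp1, h3]
    have : β = 0 := by rw [← hs, ← h3]; exact h.sy0 k hk
    rw [this, add_assoc, w2, add_zero]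
  · left
    refine ⟨4 * k, by omega, Or.inl ⟨?_, by rw [← h4]; exact h3⟩⟩
    rw [h4, sp1] at h3
    have : β = 0 := by rw [← hs, ← h3, map_add, sy_e, h.sy0 k hk, zero_add]
    rw [this] at h3
    rw [sp0]
    exact add_right_cancel h3
  · left
    refine ⟨4 * k + 1, by omega, Or.inl ⟨?_, by rw [← h3, h4]⟩⟩
    rw [h4, sp2] at h3
    rw [← h3, h.ctr2 h5] at hct
    rw [sp1, hct]
  · left
    refine ⟨4 * k + 3, by omega, Or.inr ⟨by rw [← h3, h4], ?_⟩⟩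
    rw [h4, sp3, h.sp3c h5] at h3
    rw [← h3, h.ctr3 h5] at hct
    have e1 : 4 * k + 3 + 1 = 4 * (k + 1) := by ring
    rw [e1, sp0, hct]

end

end Pool.Agent.H90.CB
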