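import Pool.Agent.H90.CB.Final

/-!
MP_582f2d_co: the caterpillars of the cube with the largest number of vertices of full degree.
-/

set_option autoImplicit false

namespace Pool.Agent.H90.CB

open SimpleGraph

/-- the shape: full degree at the positions `0, 1` modulo `4`, degree `2` at the others -/
structure Shape {V : Type} (T : SimpleGraph V) (n m : ℕ) (S : ℕ → V) : Prop where
  cat : Cat T m S
  two : m % 4 = 2
  deg : ∀ i < m, dg T (S i) = if i % 4 < 2 then n else 2
  leaf : ∀ x, (∀ i < m, S i ≠ x) → dg T x = 1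

theorem Shape.card {V : Type} {T : SimpleGraph V} {n m : ℕ} {S : ℕ → V} (h : Shape T n m S) (hn : 3 ≤ n) :
    {v | dg T v = n}.ncard = ((Finset.range m).filter fun i => i % 4 < 2).card := by
  classical
  have e1 : {v | dg T v = n} = S '' ((Finset.range m).filter fun i => i % 4 < 2 : Finset ℕ) := by
    ext v
    rw [Set.mem_ofPred_eq, Set.mem_image]
    constructor
    · intro hv
      by_cases hs : ∃ i < m, S i = v
      · obtain ⟨i, hi, rfl⟩ := hs
        refine ⟨i, ?_, rfl⟩
        rw [Finset.mem_coe, Finset.mem_filter, Finset.mem_range]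
        refine ⟨hi, ?_⟩
        by_contra h3
        rw [h.deg i hi, if_neg h3] at hv
        omega
      · push Not at hs
        rw [h.leaf v hs] at hv
        omega
    · rintro ⟨i, hi, rfl⟩
      rw [Finset.mem_coe, Finset.mem_filter, Finset.mem_range] at hi
      rw [h.deg i hi.1, if_pos hi.2]
  rw [e1, Set.InjOn.ncard_image, Set.ncard_coe_finset]
  intro i hi j hj hij
  rw [Finset.mem_coe, Finset.mem_filter, Finset.mem_range] at hi hj
  exact h.cat.inj i j hi.1 hj.1 hij

theorem count_lt {m m' : ℕ} (h : m % 4 = 2) (h' : m' % 4 = 2) (hlt : m < m') :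
    ((Finset.range m).filter fun i => i % 4 < 2).card < ((Finset.range m').filter fun i => i % 4 < 2).card := by
  apply Finset.card_lt_card
  rw [Finset.ssubset_iff_of_subset]
  · refine ⟨m + 2, ?_, ?_⟩
    · rw [Finset.mem_filter, Finset.mem_range]
      omega
    · rw [Finset.mem_filter, Finset.mem_range]
      omega
  · intro i hi
    rw [Finset.mem_filter, Finset.mem_range] at hi ⊢
    omega

theorem Shape.eq {V V' : Type} {T : SimpleGraph V} {T' : SimpleGraph V'} {n m m' : ℕ} {S : ℕ → V} {S' : ℕ → V'}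
    (h : Shape T n m S) (h' : Shape T' n m' S') (hn : 3 ≤ n)
    (hc : {v | dg T v = n}.ncard = {v | dg T' v = n}.ncard) : m = m' := by
  rw [h.card hn, h'.card hn] at hc
  rcases Nat.lt_trichotomy m m' with h3 | h3 | h3
  · have := count_lt h.two h'.two h3
    omega
  · exact h3
  · have := count_lt h'.two h.two h3
    omega

section

variable {n : ℕ} {T : SimpleGraph (Fin n → Bool)}

theorem ham {n : ℕ} {u v : Fin n → Bool} (h : ∃! i, u i ≠ v i) : hammingDist u v = 1 := by
  obtain ⟨i, hi, h3⟩ := h
  unfold hammingDist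
  rw [Finset.card_eq_one]
  refine ⟨i, ?_⟩
  ext j
  rw [Finset.mem_filter, Finset.mem_singleton]
  constructor
  · intro hj
    exact h3 j hj.2
  · rintro rfl
    exact ⟨Finset.mem_univ _, hi⟩

theorem dg_eq {V : Type} [Fintype V] [DecidableEq V] (T : SimpleGraph V) [DecidableRel T.Adj] (v : V) :
    dg T v = T.degree v := by
  unfold dg
  rw [Set.ncard_eq_toFinset_card']
  rfl

/-- a vertex has at most one neighbour of full degree -/
theorem full_unique (hQ : ∀ x y, T.Adj x y → ∃! i, x i ≠ y i) (hT : T.IsAcyclic) {u v w : Fin n → Bool}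
    (hu : dg T u = n) (hv : dg T v = n) (huw : T.Adj u w) (hvw : T.Adj v w) : u = v := by
  classical
  by_contra huv
  have hfull : ∀ v, dg T v = n → ∀ w, hammingDist v w = 1 → T.Adj v w := by
    intro v hv w hw
    rw [dg_eq] at hv
    have hsub : T.neighborFinset v ⊆
        Finset.univ.filter (fun w : Fin n → Bool => hammingDist v w = 1) := by
      intro x hx
      rw [SimpleGraph.mem_neighborFinset] at hx
      rw [Finset.mem_filter]
      exact ⟨Finset.mem_univ _, ham (hQ v x hx)⟩
    have hEq := Finset.eq_of_subset_of_card_le hsub (by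
      rw [SimpleGraph.card_neighborFinset_eq_degree, hv]; exact H8.nbr_card v)
    have hmem : w ∈ T.neighborFinset v := by
      rw [hEq, Finset.mem_filter]
      exact ⟨Finset.mem_univ _, hw⟩
    rwa [SimpleGraph.mem_neighborFinset] at hmem
  obtain ⟨w', hne, h1, h2⟩ := H8.second_nbr u v w (ham (hQ u w huw)) (ham (hQ v w hvw)) huv
  have a1 : T.Adj u w' := hfull u hu w' h1
  have a2 : T.Adj v w' := hfull v hv w' h2
  have hp1 : (SimpleGraph.Walk.cons huw (SimpleGraph.Walk.cons hvw.symm
      SimpleGraph.Walk.nil) : T.Walk u v).IsPath := by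
    simp [SimpleGraph.Walk.isPath_def, huv, huw.ne, hvw.ne.symm]
  have hp2 : (SimpleGraph.Walk.cons a1 (SimpleGraph.Walk.cons a2.symm
      SimpleGraph.Walk.nil) : T.Walk u v).IsPath := by
    simp [SimpleGraph.Walk.isPath_def, huv, a1.ne, a2.ne.symm]
  have := (hT.subsingleton_path u v).elim ⟨_, hp1⟩ ⟨_, hp2⟩
  have h3 := congrArg (fun q : T.Path u v => q.1.support) this
  simp only [SimpleGraph.Walk.support_cons, SimpleGraph.Walk.support_nil, List.cons.injEq] at h3
  exact hne h3.2.1.symm

/-- if there are `2 ^ n / n` vertices of full degree, each vertex has a neighbour of full degree -/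
theorem full_exists (hQ : ∀ x y, T.Adj x y → ∃! i, x i ≠ y i) (hT : T.IsAcyclic)
    (hc : 2 ^ n ≤ n * {v | dg T v = n}.ncard) (w : Fin n → Bool) : ∃ u, dg T u = n ∧ T.Adj u w := by
  classical
  set F := Finset.univ.filter (fun v => dg T v = n) with hF
  have h3 : {v | dg T v = n} = (F : Set (Fin n → Bool)) := by
    ext v
    rw [Finset.mem_coe, hF, Finset.mem_filter, Set.mem_ofPred_eq]
    exact ⟨fun h => ⟨Finset.mem_univ _, h⟩, fun h => h.2⟩
  rw [h3, Set.ncard_coe_finset] at hc
  have hcard : (F.biUnion (fun v => T.neighborFinset v)).card = n * F.card := by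
    rw [Finset.card_biUnion]
    · rw [Finset.sum_congr rfl (g := fun _ => n)]
      · rw [Finset.sum_const, smul_eq_mul, mul_comm]
      · intro v hv
        rw [SimpleGraph.card_neighborFinset_eq_degree, ← dg_eq]
        exact (Finset.mem_filter.1 hv).2
    · intro u hu v hv huv
      rw [Function.onFun, Finset.disjoint_left]
      intro w hwu hwv
      rw [SimpleGraph.mem_neighborFinset] at hwu hwv
      exact huv (full_unique hQ hT (Finset.mem_filter.1 hu).2 (Finset.mem_filter.1 hv).2 hwu hwv)
  have huniv : F.biUnion (fun v => T.neighborFinset v) = Finset.univ := by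
    apply Finset.eq_univ_of_card
    have h4 := Finset.card_le_univ (F.biUnion (fun v => T.neighborFinset v))
    have h5 : Fintype.card (Fin n → Bool) = 2 ^ n := by simp
    omega
  have hw : w ∈ F.biUnion (fun v => T.neighborFinset v) := by
    rw [huniv]
    exact Finset.mem_univ _
  obtain ⟨u, hu, h4⟩ := Finset.mem_biUnion.1 hw
  rw [SimpleGraph.mem_neighborFinset] at h4
  exact ⟨u, (Finset.mem_filter.1 hu).2, h4⟩

/-- the shape of a spanning caterpillar with `2 ^ n / n` vertices of full degree -/
theorem shape (hn : 3 ≤ n) (hQ : ∀ x y, T.Adj x y → ∃! i, x i ≠ y i) (hT : T.IsAcyclic)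
    (hc : 2 ^ n ≤ n * {v | dg T v = n}.ncard) {m : ℕ}
    (ι : T.induce {v | dg T v ≠ 1} ≃g pathGraph m) : ∃ S, Shape T n m S := by
  classical
  let S : ℕ → Fin n → Bool := fun i => if h : i < m then (ι.symm ⟨i, h⟩).1 else fun _ => false
  have hS : ∀ i (h : i < m), S i = (ι.symm ⟨i, h⟩).1 := fun i h => dif_pos h
  have hne : ∀ i < m, dg T (S i) ≠ 1 := by
    intro i hi
    rw [hS i hi]
    exact (ι.symm ⟨i, hi⟩).2
  have hsur : ∀ x, dg T x ≠ 1 → ∃ i < m, S i = x := by
    intro x hx
    refine ⟨ι ⟨x, hx⟩, (ι ⟨x, hx⟩).2, ?_⟩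
    rw [hS _ (ι ⟨x, hx⟩).2]
    simp
  have hinj : ∀ i j, i < m → j < m → S i = S j → i = j := by
    intro i j hi hj hij
    rw [hS i hi, hS j hj] at hij
    have := ι.symm.injective (Subtype.ext hij)
    exact congrArg Fin.val this
  have hadj : ∀ i j, i < m → j < m → (T.Adj (S i) (S j) ↔ i + 1 = j ∨ j + 1 = i) := by
    intro i j hi hj
    have h3 := ι.symm.map_rel_iff (a := ⟨i, hi⟩) (b := ⟨j, hj⟩)
    rw [pathGraph_adj] at h3
    rw [hS i hi, hS j hj]
    exact h3
  have hlf : ∀ x, (∀ i < m, S i ≠ x) → dg T x = 1 := by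
    intro x hx
    by_contra h3
    obtain ⟨i, hi, h4⟩ := hsur x h3
    exact hx i hi h4
  have hfs : ∀ u, dg T u = n → ∃ i < m, S i = u := fun u hu => hsur u (by omega)
  -- the neighbour of a leaf
  have hln : ∀ x, (∀ i < m, S i ≠ x) → ∃ i < m, dg T (S i) = n ∧ ∀ y, T.Adj x y ↔ y = S i := by
    intro x hx
    obtain ⟨u, hu, hux⟩ := full_exists hQ hT hc x
    obtain ⟨i, hi, rfl⟩ := hfs u hu
    have h3 := hlf x hx
    unfold dg at h3
    obtain ⟨y, hy⟩ := Set.ncard_eq_one.1 h3
    have h4 : S i ∈ T.neighborSet x := hux.symm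
    rw [hy, Set.mem_singleton_iff] at h4
    refine ⟨i, hi, hu, fun z => ?_⟩
    rw [← SimpleGraph.mem_neighborSet, hy, Set.mem_singleton_iff, h4]
  have hLf : ∀ i < m, ∀ x, (∀ j < m, S j ≠ x) → T.Adj (S i) x → dg T (S i) = n := by
    intro i hi x hx hix
    obtain ⟨j, hj, h3, h4⟩ := hln x hx
    rw [(h4 _).1 hix.symm]
    exact h3
  have hK : ∀ i < m, ∃ j < m, (i + 1 = j ∨ j + 1 = i) ∧ dg T (S j) = n := by
    intro i hi
    obtain ⟨u, hu, hux⟩ := full_exists hQ hT hc (S i)
    obtain ⟨j, hj, rfl⟩ := hfs u hu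
    exact ⟨j, hj, (hadj i j hi hj).1 hux.symm, hu⟩
  have hU : ∀ i < m, ∀ j < m, ∀ k < m, (i + 1 = j ∨ j + 1 = i) → (i + 1 = k ∨ k + 1 = i) →
      dg T (S j) = n → dg T (S k) = n → j = k := by
    intro i hi j hj k hk h3 h4 h5 h6
    exact hinj j k hj hk (full_unique hQ hT h5 h6 ((hadj i j hi hj).2 h3).symm ((hadj i k hi hk).2 h4).symm)
  have hm : 0 < m := by
    obtain ⟨u, hu, _⟩ := full_exists hQ hT hc (fun _ => false)
    obtain ⟨i, hi, _⟩ := hfs u hu
    omega
  -- the ends of the spine
  have hE : ∀ i < m, i = 0 ∨ i + 1 = m → dg T (S i) = n := by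
    intro i hi hi'
    obtain ⟨j, hj, h3, h4⟩ := hK i hi
    have h5 : S j ∈ T.neighborSet (S i) := (hadj i j hi hj).2 h3
    by_contra hcon
    apply hne i hi
    unfold dg
    rw [Set.ncard_eq_one]
    refine ⟨S j, ?_⟩
    ext x
    rw [Set.mem_singleton_iff]
    constructor
    · intro hx
      by_cases hs : ∃ k < m, S k = x
      · obtain ⟨k, hk, rfl⟩ := hs
        have h6 := (hadj i k hi hk).1 hx
        have : k = j := by omega
        rw [this]
      · push Not at hs
        exact (hcon (hLf i hi x hs hx)).elim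
    · rintro rfl
      exact h5
  have h01 : 1 < m ∧ dg T (S 1) = n := by
    obtain ⟨j, hj, h3, h4⟩ := hK 0 hm
    have : j = 1 := by omega
    rw [this] at hj h4
    exact ⟨hj, h4⟩
  have hP : ∀ i, i < m → (dg T (S i) = n ↔ i % 4 < 2) := by
    intro i
    induction i using Nat.strong_induction_on with
    | _ i ih =>
      intro hi
      rcases Nat.lt_or_ge i 2 with h3 | h3
      · have : i = 0 ∨ i = 1 := by omega
        rcases this with rfl | rfl
        · exact ⟨fun _ => by omega, fun _ => hE 0 hi (Or.inl rfl)⟩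
        · exact ⟨fun _ => by omega, fun _ => h01.2⟩
      · obtain ⟨k, rfl⟩ : ∃ k, i = k + 2 := ⟨i - 2, by omega⟩
        have h4 := ih k (by omega) (by omega)
        obtain ⟨j, hj, h5, h6⟩ := hK (k + 1) (by omega)
        constructor
        · intro h7
          have h8 : ¬ dg T (S k) = n := by
            intro h9
            have := hU (k + 1) (by omega) k (by omega) (k + 2) hi (Or.inr rfl) (Or.inl rfl) h9 h7
            omega
          rw [h4] at h8
          omega
        · intro h7
          have h8 : ¬ dg T (S k) = n := by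
            rw [h4]
            omega
          have : j = k ∨ j = k + 2 := by omega
          rcases this with rfl | rfl
          · exact (h8 h6).elim
          · exact h6
  have hm4 : m % 4 = 2 := by
    have h3 := (hP (m - 1) (by omega)).1 (hE (m - 1) (by omega) (Or.inr (by omega)))
    obtain ⟨j, hj, h4, h5⟩ := hK (m - 1) (by omega)
    have h6 := (hP j hj).1 h5
    omega
  refine ⟨S, ⟨⟨hm, hinj, hadj, ?_⟩, hm4, ?_, hlf⟩⟩
  · intro x hx
    obtain ⟨i, hi, _, h3⟩ := hln x hx
    exact ⟨i, hi, h3⟩
  · intro i hi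
    split_ifs with h3
    · exact (hP i hi).2 h3
    · have h4 : ¬ dg T (S i) = n := fun h5 => h3 ((hP i hi).1 h5)
      unfold dg
      rw [show T.neighborSet (S i) = {S (i - 1), S (i + 1)} by
        ext x
        rw [Set.mem_insert_iff, Set.mem_singleton_iff]
        constructor
        · intro hx
          by_cases hs : ∃ k < m, S k = x
          · obtain ⟨k, hk, rfl⟩ := hs
            have h6 := (hadj i k hi hk).1 hx
            have : k = i - 1 ∨ k = i + 1 := by omega
            rcases this with rfl | rfl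
            · exact Or.inl rfl
            · exact Or.inr rfl
          · push Not at hs
            exact (h4 (hLf i hi x hs hx)).elim
        · rintro (rfl | rfl)
          · exact (hadj i (i - 1) hi (by omega)).2 (by omega)
          · exact (hadj i (i + 1) hi (by omega)).2 (by omega)]
      refine Set.ncard_pair fun h5 => ?_
      have := hinj (i - 1) (i + 1) (by omega) (by omega) h5
      omega

end

end Pool.Agent.H90.CB
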